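import Mathlib

/-!
# Atomless finite measures on the line
-/

open Set MeasureTheory Filter Topology

open scoped ENNReal

namespace Pool.Agent.Lib.MP_a8cc1b_lc

theorem measure_slab (m : Measure ℝ) [IsFiniteMeasure m] [NullSingletonClass m] (a b : ℝ≥0∞) :
    m {v | a ≤ m (Iio v) ∧ m (Iio v) ≤ b} ≤ b - a := by
  have hmono : Monotone fun v : ℝ => m (Iio v) := fun x y hxy => measure_mono (Iio_subset_Iio hxy)
  have hm : MeasurableSet {v | a ≤ m (Iio v) ∧ m (Iio v) ≤ b} :=
    (measurableSet_le measurable_const hmono.measurable).inter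
      (measurableSet_le hmono.measurable measurable_const)
  by_contra hcon
  rw [not_le] at hcon
  obtain ⟨K, hK1, hK2, hK3⟩ := hm.exists_lt_isCompact hcon
  have hne : K.Nonempty := by
    by_contra h
    rw [not_nonempty_iff_eq_empty] at h
    rw [h, measure_empty] at hK3
    exact absurd hK3 (not_lt.mpr zero_le)
  have h1 := hK2.sInf_mem hne
  have h2 := hK2.sSup_mem hne
  have h3 : K ⊆ Icc (sInf K) (sSup K) := fun x hx =>
    ⟨csInf_le hK2.bddBelow hx, le_csSup hK2.bddAbove hx⟩
  have h4 : m K ≤ m (Iio (sSup K)) - m (Iio (sInf K)) := by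
    have h5 : sInf K ≤ sSup K := csInf_le hK2.bddBelow h2
    have h6 : m (Iio (sSup K)) = m (Iio (sInf K)) + m (Ico (sInf K) (sSup K)) := by
      rw [← measure_union _ measurableSet_Ico, Iio_union_Ico_eq_Iio h5]
      apply disjoint_left.mpr
      intro x hx hx'
      exact absurd hx'.1 (not_le.mpr hx)
    rw [h6, ENNReal.add_sub_cancel_left (measure_ne_top _ _)]
    calc m K ≤ m (Icc (sInf K) (sSup K)) := measure_mono h3
      _ = m (Ico (sInf K) (sSup K)) := (measure_congr Ico_ae_eq_Icc).symm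
  have h7 : m K ≤ b - a := h4.trans (tsub_le_tsub (hK1 h2).2 (hK1 h1).1)
  exact absurd (hK3.trans_le h7) (lt_irrefl _)

theorem exists_quantile (m : Measure ℝ) [IsFiniteMeasure m] [NullSingletonClass m] {t : ℝ≥0∞}
    (h0 : 0 < t) (h1 : t < m univ) : ∃ z, m (Iio z) = t ∧ ∀ z' < z, m (Iio z') < t := by
  have hmono : Monotone fun v : ℝ => m (Iio v) := fun x y hxy => measure_mono (Iio_subset_Iio hxy)
  have htop : ∃ z, t ≤ m (Iio z) := by
    obtain ⟨z, hz⟩ := ((tendsto_measure_Iic_atTop m).eventually (lt_mem_nhds h1)).exists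
    exact ⟨z, by rw [measure_congr Iio_ae_eq_Iic]; exact hz.le⟩
  have hbot : ∃ z, m (Iio z) < t := by
    have h2 : Tendsto (fun n : ℕ => m (Iio (-(n : ℝ)))) atTop (𝓝 (m (⋂ n : ℕ, Iio (-(n : ℝ))))) := by
      apply tendsto_measure_iInter_atTop
      · intro n
        exact measurableSet_Iio.nullMeasurableSet
      · intro n n' hn
        apply Iio_subset_Iio
        simpa using hn
      · exact ⟨0, measure_ne_top _ _⟩
    have h3 : (⋂ n : ℕ, Iio (-(n : ℝ))) = ∅ := by
      rw [Set.eq_empty_iff_forall_notMem]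
      intro x hx
      rw [mem_iInter] at hx
      obtain ⟨n, hn⟩ := exists_nat_gt (-x)
      have := hx n
      rw [mem_Iio] at this
      linarith
    rw [h3, measure_empty] at h2
    obtain ⟨n, hn⟩ := (h2.eventually (gt_mem_nhds h0)).exists
    exact ⟨_, hn⟩
  obtain ⟨z1, hz1⟩ := htop
  obtain ⟨z2, hz2⟩ := hbot
  have hbdd : BddBelow {z | t ≤ m (Iio z)} := by
    refine ⟨z2, ?_⟩
    intro z hz
    by_contra hcon
    rw [not_le] at hcon
    exact absurd (lt_of_lt_of_le hz2 (hz : t ≤ m (Iio z))) (not_lt.mpr (hmono hcon.le))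
  have hne : {z | t ≤ m (Iio z)}.Nonempty := ⟨z1, hz1⟩
  set z0 := sInf {z | t ≤ m (Iio z)} with hz0
  have hlow : ∀ z' < z0, m (Iio z') < t := by
    intro z' hz'
    by_contra hcon
    rw [not_lt] at hcon
    exact absurd (csInf_le hbdd (show z' ∈ {z | t ≤ m (Iio z)} from hcon)) (not_le.mpr hz')
  have hup : ∀ z' > z0, t ≤ m (Iio z') := by
    intro z' hz'
    obtain ⟨z, hz, hzz⟩ := exists_lt_of_csInf_lt hne hz'
    exact (hz : t ≤ m (Iio z)).trans (hmono hzz.le)
  refine ⟨z0, le_antisymm ?_ ?_, hlow⟩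
  · have h2 : Tendsto (fun n : ℕ => m (Iio (z0 - 1 / ((n : ℝ) + 1)))) atTop
        (𝓝 (m (⋃ n : ℕ, Iio (z0 - 1 / ((n : ℝ) + 1))))) := by
      apply tendsto_measure_iUnion_atTop
      intro n n' hn
      apply Iio_subset_Iio
      have : (1 : ℝ) / ((n' : ℝ) + 1) ≤ 1 / ((n : ℝ) + 1) :=
        one_div_le_one_div_of_le (by positivity) (by exact_mod_cast Nat.succ_le_succ hn)
      linarith
    have h3 : (⋃ n : ℕ, Iio (z0 - 1 / ((n : ℝ) + 1))) = Iio z0 := by
      ext x
      rw [mem_iUnion]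
      constructor
      · rintro ⟨n, hn⟩
        rw [mem_Iio] at hn ⊢
        have : (0 : ℝ) < 1 / ((n : ℝ) + 1) := by positivity
        linarith
      · intro hx
        rw [mem_Iio] at hx
        obtain ⟨n, hn⟩ := exists_nat_one_div_lt (sub_pos.mpr hx)
        exact ⟨n, by rw [mem_Iio]; linarith⟩
    rw [h3] at h2
    refine le_of_tendsto' h2 (fun n => (hlow _ ?_).le)
    have : (0 : ℝ) < 1 / ((n : ℝ) + 1) := by positivity
    linarith
  · have h2 : Tendsto (fun n : ℕ => m (Iio (z0 + 1 / ((n : ℝ) + 1)))) atTop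
        (𝓝 (m (⋂ n : ℕ, Iio (z0 + 1 / ((n : ℝ) + 1))))) := by
      apply tendsto_measure_iInter_atTop
      · intro n
        exact measurableSet_Iio.nullMeasurableSet
      · intro n n' hn
        apply Iio_subset_Iio
        have : (1 : ℝ) / ((n' : ℝ) + 1) ≤ 1 / ((n : ℝ) + 1) :=
          one_div_le_one_div_of_le (by positivity) (by exact_mod_cast Nat.succ_le_succ hn)
        linarith
      · exact ⟨0, measure_ne_top _ _⟩
    have h3 : (⋂ n : ℕ, Iio (z0 + 1 / ((n : ℝ) + 1))) = Iic z0 := by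
      ext x
      rw [mem_iInter]
      constructor
      · intro hx
        rw [mem_Iic]
        by_contra hcon
        rw [not_le] at hcon
        obtain ⟨n, hn⟩ := exists_nat_one_div_lt (sub_pos.mpr hcon)
        have := hx n
        rw [mem_Iio] at this
        linarith
      · intro hx n
        rw [mem_Iic] at hx
        rw [mem_Iio]
        have : (0 : ℝ) < 1 / ((n : ℝ) + 1) := by positivity
        linarith
    rw [h3, ← measure_congr Iio_ae_eq_Iic] at h2
    refine ge_of_tendsto' h2 (fun n => hup _ ?_)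
    have : (0 : ℝ) < 1 / ((n : ℝ) + 1) := by positivity
    linarith

theorem countable_atoms (m : Measure ℝ) [IsFiniteMeasure m] : {v : ℝ | m {v} ≠ 0}.Countable := by
  have h := Measure.countable_meas_pos_of_disjoint_iUnion (μ := m) (As := fun v : ℝ => ({v} : Set ℝ))
    (fun v => measurableSet_singleton v) (by
      intro x y hxy
      simpa [Function.onFun] using hxy)
  refine h.mono ?_
  intro v hv
  exact pos_iff_ne_zero.mpr hv

/-! ### A sparse set of dyadic expansions -/

/-- The sum of `2^{-(n+1)^2}` over the `n` with `b n = true`. -/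
noncomputable def spr (b : ℕ → Bool) : ℝ := ∑' n, if b n then (1 / 2 : ℝ) ^ ((n + 1) ^ 2) else 0

theorem spr_term_nonneg (b : ℕ → Bool) (n : ℕ) :
    (0 : ℝ) ≤ if b n then (1 / 2 : ℝ) ^ ((n + 1) ^ 2) else 0 := by
  split_ifs <;> positivity

theorem spr_term_le (b : ℕ → Bool) (j n : ℕ) :
    (if b (n + j) then (1 / 2 : ℝ) ^ ((n + j + 1) ^ 2) else 0) ≤
      (1 / 2 : ℝ) ^ (j ^ 2 + 2 * j + 1) * (1 / 2) ^ n := by
  have h1 : (1 / 2 : ℝ) ^ ((n + j + 1) ^ 2) ≤ (1 / 2 : ℝ) ^ (j ^ 2 + 2 * j + 1) * (1 / 2) ^ n := by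
    rw [← pow_add]
    apply pow_le_pow_of_le_one (by norm_num) (by norm_num)
    nlinarith
  split_ifs
  · exact h1
  · positivity

theorem spr_summable (b : ℕ → Bool) :
    Summable fun n => if b n then (1 / 2 : ℝ) ^ ((n + 1) ^ 2) else 0 := by
  apply Summable.of_nonneg_of_le (spr_term_nonneg b) (fun n => spr_term_le b 0 n)
  exact (summable_geometric_of_lt_one (by norm_num) (by norm_num)).mul_left _

theorem spr_eq (b : ℕ → Bool) (j : ℕ) :
    spr b = (∑ n ∈ Finset.range j, if b n then (1 / 2 : ℝ) ^ ((n + 1) ^ 2) else 0) +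
      ∑' n, if b (n + j) then (1 / 2 : ℝ) ^ ((n + j + 1) ^ 2) else 0 :=
  ((spr_summable b).sum_add_tsum_nat_add j).symm

theorem spr_tail_nonneg (b : ℕ → Bool) (j : ℕ) :
    (0 : ℝ) ≤ ∑' n, if b (n + j) then (1 / 2 : ℝ) ^ ((n + j + 1) ^ 2) else 0 :=
  tsum_nonneg fun n => spr_term_nonneg b (n + j)

theorem spr_tail_le (b : ℕ → Bool) (j : ℕ) :
    (∑' n, if b (n + j) then (1 / 2 : ℝ) ^ ((n + j + 1) ^ 2) else 0) ≤
      (1 / 2 : ℝ) ^ (j ^ 2 + 2 * j) := by
  have h1 : Summable fun n => if b (n + j) then (1 / 2 : ℝ) ^ ((n + j + 1) ^ 2) else 0 :=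
    (summable_nat_add_iff j).mpr (spr_summable b)
  have h2 : Summable fun n : ℕ => (1 / 2 : ℝ) ^ (j ^ 2 + 2 * j + 1) * (1 / 2) ^ n :=
    (summable_geometric_of_lt_one (by norm_num) (by norm_num)).mul_left _
  refine (h1.tsum_le_tsum (fun n => spr_term_le b j n) h2).trans ?_
  rw [tsum_mul_left, tsum_geometric_of_lt_one (by norm_num) (by norm_num), pow_succ]
  apply le_of_eq
  ring

theorem spr_partial (b : ℕ → Bool) (j : ℕ) : ∃ i : ℕ,
    (∑ n ∈ Finset.range j, if b n then (1 / 2 : ℝ) ^ ((n + 1) ^ 2) else 0) = i / 2 ^ (j ^ 2) := by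
  induction j with
  | zero => exact ⟨0, by simp⟩
  | succ j IH =>
    obtain ⟨i, hi⟩ := IH
    refine ⟨i * 2 ^ (2 * j + 1) + (if b j then 1 else 0), ?_⟩
    rw [Finset.sum_range_succ, hi]
    have h1 : (2 : ℝ) ^ ((j + 1) ^ 2) = 2 ^ (j ^ 2) * 2 ^ (2 * j + 1) := by
      rw [← pow_add]
      congr 1
      ring
    split_ifs
    · push_cast
      rw [h1, one_div, inv_pow, h1]
      field_simp
    · push_cast
      rw [h1]
      field_simp
      ring

theorem spr_injective : Function.Injective spr := by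
  have key : ∀ (b b' : ℕ → Bool) (n : ℕ), (∀ k < n, b k = b' k) → b n = true → b' n = false →
      spr b' < spr b := by
    intro b b' n hlt hb hb'
    rw [spr_eq b (n + 1), spr_eq b' (n + 1), Finset.sum_range_succ, Finset.sum_range_succ]
    have h1 : (∑ k ∈ Finset.range n, if b' k then (1 / 2 : ℝ) ^ ((k + 1) ^ 2) else 0) =
        ∑ k ∈ Finset.range n, if b k then (1 / 2 : ℝ) ^ ((k + 1) ^ 2) else 0 := by
      apply Finset.sum_congr rfl
      intro k hk
      rw [hlt k (Finset.mem_range.mp hk)]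
    rw [h1, hb, hb']
    have h2 := spr_tail_nonneg b (n + 1)
    have h3 := spr_tail_le b' (n + 1)
    have h4 : (1 / 2 : ℝ) ^ ((n + 1) ^ 2 + 2 * (n + 1)) < (1 / 2 : ℝ) ^ ((n + 1) ^ 2) := by
      apply pow_lt_pow_right_of_lt_one₀ (by norm_num) (by norm_num)
      omega
    simp only [if_true, Bool.false_eq_true, if_false]
    linarith
  intro b b' h
  by_contra hne
  have hex : ∃ n, b n ≠ b' n := by
    by_contra hcon
    push Not at hcon
    exact hne (funext hcon)
  classical
  have h1 := Nat.find_spec hex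
  have h2 : ∀ k < Nat.find hex, b k = b' k := fun k hk => by
    have := Nat.find_min hex hk
    push Not at this
    exact this
  rcases hb : b (Nat.find hex) with _ | _
  · have hb' : b' (Nat.find hex) = true := by
      rcases hb2 : b' (Nat.find hex) with _ | _
      · exact absurd (hb.trans hb2.symm) h1
      · rfl
    exact absurd h (key b' b _ (fun k hk => (h2 k hk).symm) hb' hb).ne
  · have hb' : b' (Nat.find hex) = false := by
      rcases hb2 : b' (Nat.find hex) with _ | _
      · rfl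
      · exact absurd (hb.trans hb2.symm) h1
    exact absurd h (key b b' _ h2 hb hb').ne'

/-- The set of reals `u` with `i/2^{j²} ≤ u ≤ (i 2^j + 1) / 2^{j² + j}` for some `i`, for every
`j`. -/
def Sparse (u : ℝ≥0∞) : Prop :=
  ∀ j : ℕ, ∃ i : ℕ, ENNReal.ofReal (i / 2 ^ (j ^ 2)) ≤ u ∧
    u ≤ ENNReal.ofReal ((i * 2 ^ j + 1) / 2 ^ (j ^ 2 + j))

theorem sparse_zero : Sparse 0 := fun j => ⟨0, by simp⟩

theorem sparse_spr (b : ℕ → Bool) : Sparse (ENNReal.ofReal (spr b)) := by
  intro j
  obtain ⟨i, hi⟩ := spr_partial b j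
  refine ⟨i, ?_, ?_⟩
  · apply ENNReal.ofReal_le_ofReal
    rw [spr_eq b j, hi]
    have := spr_tail_nonneg b j
    linarith
  · apply ENNReal.ofReal_le_ofReal
    rw [spr_eq b j, hi]
    have h1 := spr_tail_le b j
    have h2 : ((i : ℝ) * 2 ^ j + 1) / 2 ^ (j ^ 2 + j) = i / 2 ^ (j ^ 2) + (1 / 2) ^ (j ^ 2 + j) := by
      rw [one_div, inv_pow, pow_add]
      field_simp
    have h3 : (1 / 2 : ℝ) ^ (j ^ 2 + 2 * j) ≤ (1 / 2) ^ (j ^ 2 + j) := by
      apply pow_le_pow_of_le_one (by norm_num) (by norm_num)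
      omega
    rw [h2]
    linarith

/-- There are uncountably many sparse numbers in each interval `(0, M)`. -/
theorem not_countable_sparse {M : ℝ≥0∞} (hM : 0 < M) :
    ¬ {u : ℝ≥0∞ | Sparse u ∧ 0 < u ∧ u < M}.Countable := by
  obtain ⟨r, hr0, hrM⟩ : ∃ r : ℝ, 0 < r ∧ ENNReal.ofReal r < M := by
    obtain ⟨c, hc1, hc2⟩ := ENNReal.lt_iff_exists_nnreal_btwn.mp hM
    refine ⟨c, by exact_mod_cast hc1, ?_⟩
    rw [ENNReal.ofReal_coe_nnreal]
    exact hc2
  obtain ⟨n, hn⟩ := exists_pow_lt_of_lt_one hr0 (show (1 / 2 : ℝ) < 1 by norm_num)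
  -- the sequences starting with `n` times `false`, then `true`
  let e : (ℕ → Bool) → (ℕ → Bool) := fun b k =>
    if k < n then false else if k = n then true else b (k - (n + 1))
  have he : Function.Injective e := by
    intro b b' h
    funext k
    have h1 := congrFun h (k + (n + 1))
    simp only [e] at h1
    rw [if_neg (by omega), if_neg (by omega), if_neg (by omega), if_neg (by omega)] at h1
    simpa using h1
  have hpos : ∀ b, 0 < spr (e b) := by
    intro b
    rw [spr_eq (e b) (n + 1), Finset.sum_range_succ]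
    have h1 : e b n = true := by simp [e]
    rw [h1]
    have h2 := spr_tail_nonneg (e b) (n + 1)
    have h3 : (0 : ℝ) ≤ ∑ k ∈ Finset.range n, if e b k then (1 / 2 : ℝ) ^ ((k + 1) ^ 2) else 0 :=
      Finset.sum_nonneg fun k _ => spr_term_nonneg _ k
    have h4 : (0 : ℝ) < (1 / 2) ^ ((n + 1) ^ 2) := by positivity
    simp only [if_true]
    linarith
  have hle : ∀ b, spr (e b) < r := by
    intro b
    rw [spr_eq (e b) n]
    have h1 : (∑ k ∈ Finset.range n, if e b k then (1 / 2 : ℝ) ^ ((k + 1) ^ 2) else 0) = 0 := by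
      apply Finset.sum_eq_zero
      intro k hk
      have : e b k = false := by simp [e, Finset.mem_range.mp hk]
      simp [this]
    rw [h1, zero_add]
    refine lt_of_le_of_lt (spr_tail_le _ n) (lt_of_le_of_lt ?_ hn)
    apply pow_le_pow_of_le_one (by norm_num) (by norm_num)
    nlinarith
  intro hcount
  have hinj : Function.Injective fun b => ENNReal.ofReal (spr (e b)) := by
    intro b b' h
    have h1 := (ENNReal.ofReal_eq_ofReal_iff (hpos b).le (hpos b').le).mp h
    exact he (spr_injective h1)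
  have h2 : (range fun b => ENNReal.ofReal (spr (e b))).Countable := by
    refine hcount.mono ?_
    rintro _ ⟨b, rfl⟩
    refine ⟨sparse_spr _, ENNReal.ofReal_pos.mpr (hpos b), lt_of_le_of_lt ?_ hrM⟩
    exact ENNReal.ofReal_le_ofReal (hle b).le
  have h3 : (univ : Set (ℕ → Bool)).Countable := by
    rw [← image_univ] at h2
    exact countable_of_injective_of_countable_image (hinj.injOn) h2
  have h4 : Countable (ℕ → Bool) := countable_univ_iff.mp h3
  have h5 : Countable (Set ℕ) := by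
    classical
    refine Function.Injective.countable (f := fun (s : Set ℕ) (n : ℕ) => decide (n ∈ s)) ?_
    intro s s' h
    ext n
    have := congrFun h n
    simpa using this
  obtain ⟨f, hf⟩ := exists_surjective_nat (Set ℕ)
  exact Function.cantor_surjective f hf

end Pool.Agent.Lib.MP_a8cc1b_lc
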