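import Pool.Agent.Lib.MP_a8cc1b_lc.RF

/-!
# Measures of preimages of balls are hyperarithmetic
-/

open Primrec Set MeasureTheory Filter Topology

open scoped ENNReal

namespace Pool.Agent.Lib.MP_a8cc1b_lc

variable {α : Type} [Primcodable α] {β : Type} [Primcodable β]

/-- `F` is continuous, with hyperarithmetic lower cuts at dyadic points. -/
structure FData (F : ℝ → ℝ) : Prop where
  cont : Continuous F
  nd : ND (fun (p : (ℕ × ℕ × ℕ) × (ℕ × ℕ)) => rat p.1 < F ((p.2.1 : ℝ) / 2 ^ p.2.2))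

theorem tendsto_dig {v : ℝ} (hv : 0 ≤ v) :
    Tendsto (fun n => (dig v n : ℝ) / 2 ^ n) atTop (𝓝 v) := by
  have h1 : Tendsto (fun n : ℕ => v - (1 / 2 : ℝ) ^ n) atTop (𝓝 v) := by
    have := (tendsto_pow_atTop_nhds_zero_of_lt_one (r := (1 / 2 : ℝ)) (by norm_num)
      (by norm_num)).const_sub v
    simpa using this
  refine tendsto_of_tendsto_of_tendsto_of_le_of_le h1 tendsto_const_nhds ?_ ?_
  · intro n
    have h2 := ((dig_eq_iff hv n (dig v n)).mp rfl).2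
    have h3 : ((dig v n : ℝ) + 1) / 2 ^ n = (dig v n : ℝ) / 2 ^ n + (1 / 2) ^ n := by
      rw [add_div, one_div, one_div, inv_pow]
    rw [h3] at h2
    show v - (1 / 2 : ℝ) ^ n ≤ (dig v n : ℝ) / 2 ^ n
    linarith
  · intro n
    exact ((dig_eq_iff hv n (dig v n)).mp rfl).1

theorem FData.rd_lt {F : ℝ → ℝ} (hF : FData F) :
    RD (fun v (q : ℕ × ℕ × ℕ) => rat q < F v) := by
  have h1 : RD (fun _ (p : ((((ℕ × ℕ × ℕ) × (ℕ × ℕ × ℕ)) × ℕ) × ℕ) × ℕ) =>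
      rat p.1.1.1.2 < F ((p.2 : ℝ) / 2 ^ p.1.2)) := by
    refine RD.of_nd (hF.nd.comp (g := fun p : ((((ℕ × ℕ × ℕ) × (ℕ × ℕ × ℕ)) × ℕ) × ℕ) × ℕ =>
      (p.1.1.1.2, (p.2, p.1.2))) ?_)
    exact (snd.comp (fst.comp (fst.comp fst))).pair (snd.pair (snd.comp fst))
  have h2 := h1.subst (g := fun p => p.2) snd
  have h3 : RD (fun v (p : (((ℕ × ℕ × ℕ) × (ℕ × ℕ × ℕ)) × ℕ) × ℕ) =>
      p.1.2 ≤ p.2 → rat p.1.1.2 < F ((dig v p.2 : ℝ) / 2 ^ p.2)) :=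
    RD.imp (RD.of_primrec (nat_le.comp (snd.comp fst) snd)) h2
  have h4 : RD (fun v (p : (ℕ × ℕ × ℕ) × (ℕ × ℕ × ℕ)) => rat p.1 < rat p.2 ∧
      ∃ N, ∀ N', N ≤ N' → rat p.2 < F ((dig v N' : ℝ) / 2 ^ N')) :=
    (RD.of_primrec primrec_rat_lt).and h3.all.ex
  refine h4.ex.of_iff ?_
  intro v hv q
  have hlim : Tendsto (fun n => F ((dig v n : ℝ) / 2 ^ n)) atTop (𝓝 (F v)) :=
    (hF.cont.tendsto v).comp (tendsto_dig hv.1)
  constructor
  · intro h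
    obtain ⟨q', h5, h6⟩ := exists_rat_btwn' h
    refine ⟨q', h5, ?_⟩
    exact eventually_atTop.mp (hlim.eventually (lt_mem_nhds h6))
  · rintro ⟨q', h5, h6⟩
    have h7 : ∀ᶠ n in atTop, rat q' < F ((dig v n : ℝ) / 2 ^ n) := eventually_atTop.mpr h6
    exact lt_of_lt_of_le h5 (ge_of_tendsto hlim (h7.mono fun _ h => h.le))

theorem FData.rd_gt {F : ℝ → ℝ} (hF : FData F) :
    RD (fun v (q : ℕ × ℕ × ℕ) => F v < rat q) := by
  have h1 : RD (fun v (p : (ℕ × ℕ × ℕ) × (ℕ × ℕ × ℕ)) => rat p.2 < rat p.1 ∧ ¬ rat p.2 < F v) :=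
    (RD.of_primrec (primrec_rat_lt.comp (snd.pair fst))).and
      (RD.comp (g := fun p : (ℕ × ℕ × ℕ) × (ℕ × ℕ × ℕ) => p.2) hF.rd_lt snd).not
  refine h1.ex.of_iff ?_
  intro v _ q
  constructor
  · intro h
    obtain ⟨q', h5, h6⟩ := exists_rat_btwn' h
    exact ⟨q', h6, not_lt.mpr h5.le⟩
  · rintro ⟨q', h5, h6⟩
    exact lt_of_le_of_lt (not_lt.mp h6) h5

/-- The measure of the part of `E` mapped to a closed ball around `F v`. -/
theorem RF.ball {F : ℝ → ℝ} (hF : FData F) {E : ℝ → α → Prop} (hE : RD E) :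
    RF (fun v (e : α × ℕ) => lam {v' | E v' e.1 ∧ |F v' - F v| ≤ 1 / ((e.2 : ℝ) + 1)}) := by
  -- the slabs
  have s1 : RD (fun v' (p : α × ((ℕ × ℕ × ℕ) × (ℕ × ℕ × ℕ))) =>
      E v' p.1 ∧ rat p.2.1 < F v' ∧ F v' < rat p.2.2) := by
    refine RD.and (hE.comp (g := fun p : α × ((ℕ × ℕ × ℕ) × (ℕ × ℕ × ℕ)) => p.1) fst) ?_
    exact RD.and (RD.comp (g := fun p : α × ((ℕ × ℕ × ℕ) × (ℕ × ℕ × ℕ)) => p.2.1) hF.rd_lt
      (fst.comp snd)) (RD.comp (g := fun p : α × ((ℕ × ℕ × ℕ) × (ℕ × ℕ × ℕ)) => p.2.2) hF.rd_gt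
      (snd.comp snd))
  have s2 := s1.measure
  -- parameters: (((e, n), t), t'), (a, b)
  have s3 : RD (fun v (p : ((((α × ℕ) × (ℕ × ℕ)) × (ℕ × ℕ)) × ((ℕ × ℕ × ℕ) × (ℕ × ℕ × ℕ)))) =>
      rat p.2.1 + 1 / ((p.1.1.1.2 : ℝ) + 1) < F v → F v + 1 / ((p.1.1.1.2 : ℝ) + 1) < rat p.2.2 →
      qe p.1.2 < lam {v' | E v' p.1.1.1.1 ∧ rat p.2.1 < F v' ∧ F v' < rat p.2.2}) := by
    apply RD.imp
    · have := RD.comp (g := fun p : (((α × ℕ) × (ℕ × ℕ)) × (ℕ × ℕ)) ×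
        ((ℕ × ℕ × ℕ) × (ℕ × ℕ × ℕ)) => addInv p.2.1 p.1.1.1.2) hF.rd_lt
        (primrec_addInv.comp (fst.comp snd) (snd.comp (fst.comp (fst.comp fst))))
      refine this.of_iff ?_
      intro v _ p
      rw [rat_addInv]
    apply RD.imp
    · have := RD.comp (g := fun p : (((α × ℕ) × (ℕ × ℕ)) × (ℕ × ℕ)) ×
        ((ℕ × ℕ × ℕ) × (ℕ × ℕ × ℕ)) => subInv p.2.2 p.1.1.1.2) hF.rd_gt
        (primrec_subInv.comp (snd.comp snd) (snd.comp (fst.comp (fst.comp fst))))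
      refine this.of_iff ?_
      intro v _ p
      rw [rat_subInv, lt_sub_iff_add_lt]
    · exact RD.of_nd (ND.comp (g := fun p : (((α × ℕ) × (ℕ × ℕ)) × (ℕ × ℕ)) ×
        ((ℕ × ℕ × ℕ) × (ℕ × ℕ × ℕ)) => ((p.1.1.1.1, p.2), p.1.2)) s2
        (((fst.comp (fst.comp (fst.comp fst))).pair snd).pair (snd.comp fst)))
  have s4 : RD (fun v (p : ((α × ℕ) × (ℕ × ℕ)) × (ℕ × ℕ)) => qe p.1.2 < qe p.2 ∧
      ∀ c : (ℕ × ℕ × ℕ) × (ℕ × ℕ × ℕ), rat c.1 + 1 / ((p.1.1.2 : ℝ) + 1) < F v →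
      F v + 1 / ((p.1.1.2 : ℝ) + 1) < rat c.2 →
      qe p.2 < lam {v' | E v' p.1.1.1 ∧ rat c.1 < F v' ∧ F v' < rat c.2}) :=
    (RD.of_primrec (primrec_qe_lt.comp ((snd.comp fst).pair snd))).and s3.all
  refine s4.ex.of_iff ?_
  rintro v hv ⟨⟨e, n⟩, t⟩
  simp only
  constructor
  · intro h
    obtain ⟨t', h1, h2⟩ := exists_qe_btwn h
    refine ⟨t', h1, ?_⟩
    intro c hc1 hc2
    refine h2.trans_le (measure_mono ?_)
    rintro v' ⟨hv1, hv2⟩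
    rw [abs_le] at hv2
    exact ⟨hv1, by linarith [hv2.1], by linarith [hv2.2]⟩
  · rintro ⟨t', h1, h2⟩
    by_contra hcon
    rw [not_lt] at hcon
    -- decreasing sets
    let S : ℕ → Set ℝ := fun k => {v' | (v' ∈ Ico (0 : ℝ) 1 ∧ E v' e) ∧
      |F v' - F v| < 1 / ((n : ℝ) + 1) + 1 / ((k : ℝ) + 1)}
    have hSm : ∀ k, MeasurableSet (S k) := by
      intro k
      refine (hE.measurableSet e).inter ?_
      exact measurableSet_lt ((hF.cont.sub continuous_const).abs.measurable) measurable_const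
    have hSa : Antitone S := by
      intro k k' hkk v' hv'
      refine ⟨hv'.1, lt_of_lt_of_le hv'.2 ?_⟩
      have : (1 : ℝ) / ((k' : ℝ) + 1) ≤ 1 / ((k : ℝ) + 1) :=
        one_div_le_one_div_of_le (by positivity) (by exact_mod_cast Nat.succ_le_succ hkk)
      linarith
    have hlim := tendsto_measure_iInter_atTop (μ := lam) (s := S)
      (fun k => (hSm k).nullMeasurableSet) hSa ⟨0, measure_ne_top _ _⟩
    have hI : lam (⋂ k, S k) ≤ qe t := by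
      refine le_trans (measure_mono ?_) hcon
      intro v' hv'
      rw [mem_iInter] at hv'
      refine ⟨(hv' 0).1.2, ?_⟩
      have h5 : Tendsto (fun k : ℕ => 1 / ((n : ℝ) + 1) + 1 / ((k : ℝ) + 1)) atTop
          (𝓝 (1 / ((n : ℝ) + 1) + 0)) := tendsto_const_nhds.add tendsto_one_div_add_atTop_nhds_zero_nat
      rw [add_zero] at h5
      exact ge_of_tendsto' h5 (fun k => (hv' k).2.le)
    have h6 : lam (⋂ k, S k) < qe t' := lt_of_le_of_lt hI h1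
    obtain ⟨k, hk⟩ := (hlim.eventually (gt_mem_nhds h6)).exists
    have hk0 : (0 : ℝ) < 1 / ((k : ℝ) + 1) := by positivity
    obtain ⟨a, ha1, ha2⟩ := exists_rat_btwn' (x := F v - 1 / ((n : ℝ) + 1) - 1 / ((k : ℝ) + 1))
      (y := F v - 1 / ((n : ℝ) + 1)) (by linarith)
    obtain ⟨b, hb1, hb2⟩ := exists_rat_btwn' (x := F v + 1 / ((n : ℝ) + 1))
      (y := F v + 1 / ((n : ℝ) + 1) + 1 / ((k : ℝ) + 1)) (by linarith)
    have h7 := h2 (a, b) (by simp only; linarith) hb1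
    have h8 : lam {v' | E v' e ∧ rat a < F v' ∧ F v' < rat b} ≤ lam (S k) := by
      have h9 : lam {v' | E v' e ∧ rat a < F v' ∧ F v' < rat b} =
          lam {v' | (v' ∈ Ico (0 : ℝ) 1 ∧ E v' e) ∧ rat a < F v' ∧ F v' < rat b} := by
        apply lam_congr
        intro v' hv'
        simp only [Set.mem_ofPred_eq, hv', true_and]
      rw [h9]
      apply measure_mono
      rintro v' ⟨hv1, hv2, hv3⟩
      refine ⟨hv1, ?_⟩
      rw [abs_lt]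
      constructor <;> linarith
    exact absurd (h7.trans_le (h8.trans hk.le)) (lt_irrefl _)

end Pool.Agent.Lib.MP_a8cc1b_lc
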