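import Pool.Agent.Lib.MP_a8cc1b_lc.S11

/-!
# Quantifiers over coded types, and lightface hyperarithmetic relations
-/

open Primrec Encodable

namespace Pool.Agent.Lib.MP_a8cc1b_lc

variable {α : Type} [Primcodable α] {β : Type} [Primcodable β]

/-- Case distinction on whether a natural number codes an element. -/
theorem S11.decodeCase {D : (ℕ → ℕ) → α × β → Prop} (hD : S11 D) (d : Prop) :
    S11 (fun x (a : α × ℕ) => (decode (α := β) a.2 = none ∧ d) ∨
      ∃ b, decode a.2 = some b ∧ D x (a.1, b)) := by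
  classical
  obtain ⟨P, hP, hD⟩ := hD
  obtain ⟨dec, hP'⟩ := hP
  refine ⟨fun p => (Option.casesOn (decode (α := β) p.1.2) (decide d)
    (fun b => decide (P ((p.1.1, b), p.2))) : Bool) = true, ?_, ?_⟩
  · have h1 : Primrec fun p : (α × ℕ) × List ℕ × List ℕ =>
        (Option.casesOn (decode (α := β) p.1.2) (decide d)
          (fun b => decide (P ((p.1.1, b), p.2))) : Bool) := by
      refine option_casesOn (Primrec.decode.comp (snd.comp fst)) (Primrec.const _) ?_
      have h2 : Primrec fun q : ((α × ℕ) × List ℕ × List ℕ) × β =>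
          (((q.1.1.1, q.2), q.1.2) : (α × β) × List ℕ × List ℕ) :=
        ((fst.comp (fst.comp fst)).pair snd).pair (snd.comp fst)
      exact (hP'.comp h2).to₂
    exact ⟨inferInstance, h1.of_eq (fun p => by simp)⟩
  · intro x a
    show _ ↔ ∃ w : ℕ → ℕ, ∀ n, (Option.casesOn (decode (α := β) a.2) (decide d)
      (fun b => decide (P ((a.1, b), (pre x n, pre w n)))) : Bool) = true
    rcases h : (decode (α := β) a.2) with _ | b
    · simp [h]
    · have h3 := hD x (a.1, b)
      constructor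
      · rintro (⟨h1, -⟩ | ⟨b', hb', h2⟩)
        · rw [h] at h1; cases h1
        · rw [h] at hb'
          cases hb'
          simpa using h3.mp h2
      · intro h4
        exact Or.inr ⟨b, h, h3.mpr (by simpa using h4)⟩

theorem S11.exB {D : (ℕ → ℕ) → α × β → Prop} (hD : S11 D) :
    S11 (fun x a => ∃ b, D x (a, b)) := by
  refine (hD.decodeCase False).ex.of_iff ?_
  intro x a
  constructor
  · rintro ⟨b, hb⟩
    exact ⟨encode b, Or.inr ⟨b, encodek b, hb⟩⟩
  · rintro ⟨m, ⟨-, h⟩ | ⟨b, -, hb⟩⟩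
    · exact h.elim
    · exact ⟨b, hb⟩

theorem S11.allB {D : (ℕ → ℕ) → α × β → Prop} (hD : S11 D) :
    S11 (fun x a => ∀ b, D x (a, b)) := by
  refine (hD.decodeCase True).all.of_iff ?_
  intro x a
  constructor
  · intro h m
    cases hm : decode (α := β) m with
    | none => exact Or.inl ⟨rfl, trivial⟩
    | some b => exact Or.inr ⟨b, rfl, h b⟩
  · intro h b
    rcases h (encode b) with ⟨h1, -⟩ | ⟨b', hb', h2⟩
    · rw [show decode (α := β) (a, encode b).2 = some b from encodek b] at h1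
      cases h1
    · rw [show decode (α := β) (a, encode b).2 = some b from encodek b] at hb'
      cases hb'
      exact h2

/-- Lightface `Δ¹₁` relations on `ℕ^ℕ × α`. -/
def D11 (D : (ℕ → ℕ) → α → Prop) : Prop := S11 D ∧ S11 (fun x a => ¬ D x a)

theorem D11.of_iff {D E : (ℕ → ℕ) → α → Prop} (h : D11 D) (hE : ∀ x a, E x a ↔ D x a) :
    D11 E :=
  ⟨h.1.of_iff hE, h.2.of_iff (fun x a => not_congr (hE x a))⟩

theorem D11.not {D : (ℕ → ℕ) → α → Prop} (h : D11 D) : D11 (fun x a => ¬ D x a) :=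
  ⟨h.2, h.1.of_iff (fun x a => not_not)⟩

theorem D11.and {D E : (ℕ → ℕ) → α → Prop} (hD : D11 D) (hE : D11 E) :
    D11 (fun x a => D x a ∧ E x a) :=
  ⟨hD.1.and hE.1, (hD.2.or hE.2).of_iff (fun x a => by tauto)⟩

theorem D11.or {D E : (ℕ → ℕ) → α → Prop} (hD : D11 D) (hE : D11 E) :
    D11 (fun x a => D x a ∨ E x a) :=
  ⟨hD.1.or hE.1, (hD.2.and hE.2).of_iff (fun x a => by tauto)⟩

theorem D11.imp {D E : (ℕ → ℕ) → α → Prop} (hD : D11 D) (hE : D11 E) :
    D11 (fun x a => D x a → E x a) :=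
  (hD.not.or hE).of_iff (fun x a => by tauto)

theorem D11.iff {D E : (ℕ → ℕ) → α → Prop} (hD : D11 D) (hE : D11 E) :
    D11 (fun x a => (D x a ↔ E x a)) :=
  ((hD.imp hE).and (hE.imp hD)).of_iff (fun x a => by tauto)

theorem D11.ex {D : (ℕ → ℕ) → α × β → Prop} (hD : D11 D) :
    D11 (fun x a => ∃ b, D x (a, b)) :=
  ⟨hD.1.exB, hD.2.allB.of_iff (fun x a => by simp)⟩

theorem D11.all {D : (ℕ → ℕ) → α × β → Prop} (hD : D11 D) :
    D11 (fun x a => ∀ b, D x (a, b)) :=
  ⟨hD.1.allB, hD.2.exB.of_iff (fun x a => by simp)⟩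

theorem D11.of_primrec {p : α → Prop} (hp : PrimrecPred p) :
    D11 (fun (_ : ℕ → ℕ) a => p a) :=
  ⟨S11.of_primrec hp, S11.of_primrec hp.not⟩

theorem D11.eval {p : α × ℕ → Prop} (hp : PrimrecPred p) {g : α → ℕ} (hg : Primrec g) :
    D11 (fun (x : ℕ → ℕ) a => p (a, x (g a))) :=
  ⟨S11.eval hp hg, S11.eval hp.not hg⟩

theorem D11.comp {D : (ℕ → ℕ) → β → Prop} (h : D11 D) {g : α → β} (hg : Primrec g) :
    D11 (fun x a => D x (g a)) :=
  ⟨h.1.comp hg, h.2.comp hg⟩

/-- The graph of a computable function is hyperarithmetic. -/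
theorem D11.graph {g : α → β} (hg : Computable g) :
    D11 (fun (_ : ℕ → ℕ) (p : α × β) => g p.1 = p.2) := by
  obtain ⟨c, hc⟩ := Nat.Partrec.Code.exists_code.mp hg
  have key : ∀ (a : α) (b : β), g a = b ↔
      ∃ k, Nat.Partrec.Code.evaln k c (encode a) = some (encode b) := by
    intro a b
    have h1 : encode b ∈ c.eval (encode a) ↔ g a = b := by
      rw [hc]
      simp [eq_comm]
    rw [← h1, Nat.Partrec.Code.evaln_complete]
    simp only [Option.mem_def]
  have hS : S11 (fun (_ : ℕ → ℕ) (p : α × β) => g p.1 = p.2) := by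
    have h2 : PrimrecPred fun q : (α × β) × ℕ =>
        Nat.Partrec.Code.evaln q.2 c (encode q.1.1) = some (encode q.1.2) := by
      refine Primrec.eq.comp ?_ (option_some.comp (Primrec.encode.comp (snd.comp fst)))
      exact Nat.Partrec.Code.primrec_evaln.comp
        ((snd.pair (Primrec.const c)).pair (Primrec.encode.comp (fst.comp fst)))
    refine (S11.of_primrec h2).exB.of_iff ?_
    intro x p
    exact key p.1 p.2
  refine ⟨hS, ?_⟩
  have h3 : S11 (fun (_ : ℕ → ℕ) (p : (α × β) × β) => g p.1.1 = p.2 ∧ p.2 ≠ p.1.2) :=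
    (hS.comp ((fst.comp fst).pair snd)).and
      (S11.of_primrec (Primrec.eq.comp snd (snd.comp fst)).not)
  refine h3.exB.of_iff ?_
  intro x p
  constructor
  · intro h
    exact ⟨g p.1, rfl, h⟩
  · rintro ⟨b, hb, hb'⟩ h
    exact hb' (hb.symm.trans h)

/-- Substitution of a computable function. -/
theorem D11.comp' {D : (ℕ → ℕ) → β → Prop} (h : D11 D) {g : α → β} (hg : Computable g) :
    D11 (fun x a => D x (g a)) := by
  have h1 : D11 (fun (x : ℕ → ℕ) (p : α × β) => g p.1 = p.2 ∧ D x p.2) :=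
    (D11.graph hg).and (h.comp snd)
  refine h1.ex.of_iff ?_
  intro x a
  constructor
  · intro h
    exact ⟨g a, rfl, h⟩
  · rintro ⟨b, hb, hb'⟩
    have : g a = b := hb
    rw [this]
    exact hb'

end Pool.Agent.Lib.MP_a8cc1b_lc
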