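import Pool.Agent.Lib.MP_a8cc1b_lc.Konig

/-!
# Binary digits of reals in the unit interval, and Lebesgue measure
-/

open Primrec Set MeasureTheory

open scoped ENNReal

namespace Pool.Agent.Lib.MP_a8cc1b_lc

/-- The index of the dyadic cell of level `n` containing `v`. -/
noncomputable def dig (v : ℝ) : ℕ → ℕ := fun n => ⌊v * 2 ^ n⌋₊

theorem dig_eq_iff {v : ℝ} (hv : 0 ≤ v) (n c : ℕ) :
    dig v n = c ↔ (c : ℝ) / 2 ^ n ≤ v ∧ v < (c + 1) / 2 ^ n := by
  have h2 : (0 : ℝ) < 2 ^ n := by positivity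
  rw [dig, Nat.floor_eq_iff (by positivity), div_le_iff₀ h2, lt_div_iff₀ h2]

theorem dig_lt {v : ℝ} (hv : v ∈ Ico (0 : ℝ) 1) (n : ℕ) : dig v n < 2 ^ n := by
  have h2 : (0 : ℝ) < 2 ^ n := by positivity
  have h3 : (0 : ℝ) ≤ v * 2 ^ n := mul_nonneg hv.1 h2.le
  rw [dig, Nat.floor_lt h3]
  push_cast
  calc v * 2 ^ n < 1 * 2 ^ n := mul_lt_mul_of_pos_right hv.2 h2
    _ = 2 ^ n := one_mul _

theorem dig_div {v : ℝ} {l n : ℕ} (h : l ≤ n) :
    dig v l = dig v n / 2 ^ (n - l) := by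
  have h1 : v * 2 ^ l = v * 2 ^ n / ((2 ^ (n - l) : ℕ) : ℝ) := by
    push_cast
    rw [eq_div_iff (by positivity), mul_assoc, ← pow_add]
    congr 2
    omega
  rw [dig, dig, h1, Nat.floor_div_natCast]

/-- The digits below level `n` computed from the cell of level `n`. -/
def cellPre (n c : ℕ) : List ℕ := (List.range n).map (fun l => c / 2 ^ (n - l))

theorem primrec_pow2 : Primrec (fun n : ℕ => 2 ^ n) := by
  have : Primrec (fun n : ℕ => Nat.rec (motive := fun _ => ℕ) 1 (fun _ r => 2 * r) n) := by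
    apply nat_rec₁
    exact (nat_double.comp snd).to₂
  refine this.of_eq ?_
  intro n
  induction n with
  | zero => rfl
  | succ n IH =>
    rw [pow_succ, ← IH]
    simp [mul_comm]

theorem primrec_cellPre : Primrec₂ cellPre := by
  refine list_map (list_range.comp fst) ?_
  have h1 : Primrec fun q : (ℕ × ℕ) × ℕ => 2 ^ (q.1.1 - q.2) :=
    primrec_pow2.comp (nat_sub.comp (fst.comp fst) snd)
  exact (nat_div.comp (snd.comp fst) h1).to₂

theorem cellPre_dig (v : ℝ) (n : ℕ) : cellPre n (dig v n) = pre (dig v) n := by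
  simp only [cellPre, pre]
  apply List.map_congr_left
  intro l hl
  exact (dig_div (List.mem_range.mp hl).le).symm

/-- Nonnegative rational thresholds. -/
noncomputable def qe (t : ℕ × ℕ) : ℝ≥0∞ := ENNReal.ofReal ((t.1 : ℝ) / (t.2 + 1))

theorem qe_lt_iff (s t : ℕ × ℕ) : qe s < qe t ↔ s.1 * (t.2 + 1) < t.1 * (s.2 + 1) := by
  have h1 : (0 : ℝ) < (s.2 : ℝ) + 1 := by positivity
  have h2 : (0 : ℝ) < (t.2 : ℝ) + 1 := by positivity
  have h3 : ((s.1 : ℝ) / (s.2 + 1) < (t.1 : ℝ) / (t.2 + 1)) ↔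
      s.1 * (t.2 + 1) < t.1 * (s.2 + 1) := by
    rw [div_lt_div_iff₀ h1 h2]
    norm_cast
  rw [← h3, qe, qe, ENNReal.ofReal_lt_ofReal_iff_of_nonneg (by positivity)]

theorem qe_ne_top (t : ℕ × ℕ) : qe t ≠ ∞ := ENNReal.ofReal_ne_top

theorem exists_qe_btwn {a b : ℝ≥0∞} (h : a < b) : ∃ t, a < qe t ∧ qe t < b := by
  obtain ⟨q, hq, h1, h2⟩ := ENNReal.lt_iff_exists_rat_btwn.mp h
  have hd : q.den - 1 + 1 = q.den := Nat.sub_add_cancel q.den_pos
  have hq' : qe (q.num.toNat, q.den - 1) = ((Real.toNNReal q : NNReal) : ℝ≥0∞) := by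
    rw [qe, ENNReal.ofReal]
    congr 2
    have h3 : ((q.num.toNat : ℕ) : ℝ) = (q.num : ℝ) := by
      have := Int.toNat_of_nonneg (Rat.num_nonneg.mpr hq)
      exact_mod_cast this
    have h4 : (((q.den - 1 : ℕ) : ℝ) + 1) = (q.den : ℝ) := by
      exact_mod_cast hd
    simp only
    rw [h3, h4]
    exact (Rat.cast_def q).symm
  exact ⟨(q.num.toNat, q.den - 1), by rw [hq']; exact h1, by rw [hq']; exact h2⟩

/-- Lebesgue measure on the unit interval. -/
noncomputable def lam : Measure ℝ := volume.restrict (Ico (0 : ℝ) 1)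

instance : IsProbabilityMeasure lam := by
  constructor
  simp [lam]

theorem lam_congr {s t : Set ℝ} (h : ∀ v ∈ Ico (0 : ℝ) 1, v ∈ s ↔ v ∈ t) : lam s = lam t := by
  apply measure_congr
  rw [Filter.eventuallyEq_set]
  have hI : ∀ᵐ v ∂lam, v ∈ Ico (0 : ℝ) 1 := ae_restrict_mem measurableSet_Ico
  filter_upwards [hI] with v hv
  exact h v hv

theorem lam_cell {n c : ℕ} (hc : c < 2 ^ n) :
    lam {v | v ∈ Ico (0 : ℝ) 1 ∧ dig v n = c} = ENNReal.ofReal (1 / 2 ^ n) := by
  have h2 : (0 : ℝ) < 2 ^ n := by positivity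
  have h1 : {v | v ∈ Ico (0 : ℝ) 1 ∧ dig v n = c} = Ico ((c : ℝ) / 2 ^ n) ((c + 1) / 2 ^ n) := by
    ext v
    constructor
    · rintro ⟨hv, hd⟩
      exact (dig_eq_iff hv.1 n c).mp hd
    · intro hv
      have h0 : (0 : ℝ) ≤ v := le_trans (by positivity) hv.1
      refine ⟨⟨h0, lt_of_lt_of_le hv.2 ?_⟩, (dig_eq_iff h0 n c).mpr hv⟩
      rw [div_le_one h2]
      exact_mod_cast hc
  rw [h1, lam, Measure.restrict_apply measurableSet_Ico, inter_eq_left.mpr, Real.volume_Ico]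
  · congr 1
    ring
  · rw [← h1]
    intro v hv
    exact hv.1

theorem measurableSet_dig (G : ℕ → Prop) (n : ℕ) : MeasurableSet {v : ℝ | G (dig v n)} := by
  have h1 : Measurable (fun v : ℝ => dig v n) :=
    Nat.measurable_floor.comp (measurable_id.mul_const _)
  exact h1 (MeasurableSet.of_discrete (s := {c | G c}))

theorem lam_dig (G : ℕ → Prop) [DecidablePred G] (n : ℕ) :
    lam {v | G (dig v n)} = qe (((List.range (2 ^ n)).filter (fun c => G c)).length, 2 ^ n - 1) := by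
  have h0 : lam {v | G (dig v n)} = lam (⋃ c ∈ (Finset.range (2 ^ n)).filter G,
      {v | v ∈ Ico (0 : ℝ) 1 ∧ dig v n = c}) := by
    apply lam_congr
    intro v hv
    constructor
    · intro h
      refine mem_iUnion₂.mpr ⟨dig v n, ?_, hv, rfl⟩
      rw [Finset.mem_filter, Finset.mem_range]
      exact ⟨dig_lt hv n, h⟩
    · intro h
      obtain ⟨c, hc, h3⟩ := mem_iUnion₂.mp h
      rw [Finset.mem_filter] at hc
      have h4 : dig v n = c := h3.2
      show G (dig v n)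
      rw [h4]
      exact hc.2
  rw [h0, measure_biUnion_finset]
  · have h3 : ∀ c ∈ (Finset.range (2 ^ n)).filter G,
        lam {v | v ∈ Ico (0 : ℝ) 1 ∧ dig v n = c} = ENNReal.ofReal (1 / 2 ^ n) := by
      intro c hc
      simp only [Finset.mem_filter, Finset.mem_range] at hc
      exact lam_cell hc.1
    rw [Finset.sum_congr rfl h3, Finset.sum_const, qe]
    have h4 : ((Finset.range (2 ^ n)).filter G).card =
        ((List.range (2 ^ n)).filter (fun c => G c)).length := by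
      rfl
    rw [h4, nsmul_eq_mul, ← ENNReal.ofReal_natCast, ← ENNReal.ofReal_mul (by positivity)]
    congr 1
    have h5 : (((2 ^ n - 1 : ℕ) : ℝ) + 1) = 2 ^ n := by
      have : 2 ^ n - 1 + 1 = 2 ^ n := Nat.sub_add_cancel Nat.one_le_two_pow
      exact_mod_cast this
    rw [h5]
    ring
  · intro c _ d _ hcd
    apply disjoint_left.mpr
    rintro v ⟨-, h1⟩ ⟨-, h2⟩
    exact hcd (h1.symm.trans h2)
  · intro c _
    exact measurableSet_Ico.inter (measurableSet_dig (fun d => d = c) n)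

end Pool.Agent.Lib.MP_a8cc1b_lc
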