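import Pool.Agent.Lib.MP_a8cc1b_lc.NSets
import Pool.Agent.Lib.MP_a8cc1b_lc.Atomless

/-!
# Disintegration of Lebesgue measure over the fibres of a continuous function
-/

open Set MeasureTheory Filter Topology Metric ProbabilityTheory

open scoped ENNReal

namespace Pool.Agent.Lib.MP_a8cc1b_lc

/-- The image of Lebesgue measure on the unit interval. -/
noncomputable def nu (F : ℝ → ℝ) : Measure ℝ := lam.map F

/-- The graph measure. -/
noncomputable def rho (F : ℝ → ℝ) : Measure (ℝ × ℝ) := lam.map (fun v => (F v, v))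

instance (F : ℝ → ℝ) : IsFiniteMeasure (nu F) := by
  unfold nu
  infer_instance

instance (F : ℝ → ℝ) : IsFiniteMeasure (rho F) := by
  unfold rho
  infer_instance

/-- The fibre measures. -/
noncomputable def kap (F : ℝ → ℝ) : Kernel ℝ ℝ := (rho F).condKernel

instance (F : ℝ → ℝ) : IsMarkovKernel (kap F) := by
  unfold kap
  infer_instance

variable {F : ℝ → ℝ}

theorem fst_rho : (rho F).fst = nu F := by
  rw [rho, Measure.fst_map_prodMk measurable_id']
  rfl

theorem disint : (nu F) ⊗ₘ (kap F) = rho F := by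
  have h := (rho F).disintegrate (rho F).condKernel
  rw [fst_rho] at h
  exact h

theorem map_restrict_eq (hF : Continuous F) {E : Set ℝ} (hE : MeasurableSet E) :
    (lam.restrict E).map F = (nu F).withDensity (fun y => kap F y E) := by
  ext B hB
  rw [Measure.map_apply hF.measurable hB, Measure.restrict_apply (hF.measurable hB),
    withDensity_apply _ hB, ← Measure.compProd_apply_prod hB hE, disint, rho,
    Measure.map_apply (hF.measurable.prodMk measurable_id') (hB.prod hE)]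
  rfl

theorem XE_eq (hF : Continuous F) {E : Set ℝ} (hE : MeasurableSet E) (y : ℝ) (n : ℕ) :
    XE F E y n = ((lam.restrict E).map F) (closedBall y (1 / ((n : ℝ) + 1))) := by
  rw [Measure.map_apply hF.measurable measurableSet_closedBall,
    Measure.restrict_apply (hF.measurable measurableSet_closedBall), XE]
  congr 1
  ext v
  simp only [Set.mem_ofPred_eq, mem_inter_iff, mem_preimage, mem_closedBall, Real.dist_eq]
  exact and_comm

theorem XE_univ_eq (hF : Continuous F) (y : ℝ) (n : ℕ) :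
    XE F univ y n = nu F (closedBall y (1 / ((n : ℝ) + 1))) := by
  rw [XE_eq hF MeasurableSet.univ, Measure.restrict_univ]
  rfl

theorem tendsto_radius : Tendsto (fun n : ℕ => 1 / ((n : ℝ) + 1)) atTop (𝓝[>] 0) := by
  rw [tendsto_nhdsWithin_iff]
  refine ⟨tendsto_one_div_add_atTop_nhds_zero_nat, Eventually.of_forall fun n => ?_⟩
  show (0 : ℝ) < 1 / ((n : ℝ) + 1)
  positivity

theorem ae_ratio (hF : Continuous F) {E : Set ℝ} (hE : MeasurableSet E) :
    ∀ᵐ y ∂(nu F), Tendsto (fun n : ℕ => XE F E y n / XE F univ y n) atTop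
      (𝓝 (kap F y E)) := by
  have h2 := Besicovitch.ae_tendsto_rnDeriv ((lam.restrict E).map F) (nu F)
  have h3 : ((lam.restrict E).map F).rnDeriv (nu F) =ᵐ[nu F] fun y => kap F y E := by
    rw [map_restrict_eq hF hE]
    exact Measure.rnDeriv_withDensity _ (Kernel.measurable_coe _ hE)
  filter_upwards [h2, h3] with y hy2 hy3
  rw [hy3] at hy2
  refine (hy2.comp tendsto_radius).congr fun n => ?_
  simp only [Function.comp_apply]
  rw [XE_eq hF hE, XE_univ_eq hF]

theorem XE_congr {E E' : Set ℝ} (h : ∀ v ∈ Ico (0 : ℝ) 1, v ∈ E ↔ v ∈ E') (y : ℝ) (n : ℕ) :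
    XE F E y n = XE F E' y n := by
  apply lam_congr
  intro v hv
  simp only [Set.mem_ofPred_eq, h v hv]

/-- The set of nonatomic points. -/
def NA (F : ℝ → ℝ) : Set ℝ := {v | v ∈ Ico (0 : ℝ) 1 ∧ NonAtom F v}

theorem measurableSet_NA (hF : FData F) : MeasurableSet (NA F) :=
  (rd_nonAtom hF).measurableSet ()

/-- The good points of the line. -/
structure GoodPt (F : ℝ → ℝ) (y : ℝ) : Prop where
  pos : Tendsto (fun n : ℕ => XE F univ y n / XE F univ y n) atTop (𝓝 1)
  cell : ∀ m c : ℕ, Tendsto (fun n : ℕ => XE F {v' | dig v' m = c} y n / XE F univ y n) atTop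
    (𝓝 (kap F y {v' | dig v' m = c}))
  low : ∀ m c : ℕ, Tendsto (fun n : ℕ => XE F (lowSet F m c) y n / XE F univ y n) atTop
    (𝓝 (kap F y (NA F ∩ {v' | dig v' m < c})))
  conc : kap F y {v | ¬ (v ∈ Ico (0 : ℝ) 1 ∧ F v = y)} = 0

theorem ae_good (hF : FData F) : ∀ᵐ y ∂(nu F), GoodPt F y := by
  have h1 : ∀ᵐ y ∂(nu F), Tendsto (fun n : ℕ => XE F univ y n / XE F univ y n) atTop (𝓝 1) := by
    filter_upwards [ae_ratio hF.cont MeasurableSet.univ] with y hy
    simpa using hy
  have h2 : ∀ᵐ y ∂(nu F), ∀ m c : ℕ, Tendsto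
      (fun n : ℕ => XE F {v' | dig v' m = c} y n / XE F univ y n) atTop
      (𝓝 (kap F y {v' | dig v' m = c})) := by
    rw [ae_all_iff]
    intro m
    rw [ae_all_iff]
    intro c
    exact ae_ratio hF.cont (measurableSet_dig (fun d => d = c) m)
  have h3 : ∀ᵐ y ∂(nu F), ∀ m c : ℕ, Tendsto
      (fun n : ℕ => XE F (lowSet F m c) y n / XE F univ y n) atTop
      (𝓝 (kap F y (NA F ∩ {v' | dig v' m < c}))) := by
    rw [ae_all_iff]
    intro m
    rw [ae_all_iff]
    intro c
    have h4 := ae_ratio hF.cont ((measurableSet_NA hF).inter (measurableSet_dig (fun d => d < c) m))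
    filter_upwards [h4] with y hy
    refine hy.congr fun n => ?_
    congr 1
    apply XE_congr
    intro v hv
    simp only [NA, lowSet, mem_inter_iff, Set.mem_ofPred_eq, hv, true_and]
  have h4 : ∀ᵐ y ∂(nu F), kap F y {v | ¬ (v ∈ Ico (0 : ℝ) 1 ∧ F v = y)} = 0 := by
    have h5 : ∀ᵐ p ∂((nu F) ⊗ₘ (kap F)), p.2 ∈ Ico (0 : ℝ) 1 ∧ F p.2 = p.1 := by
      rw [disint, rho]
      have hm : MeasurableSet {p : ℝ × ℝ | p.2 ∈ Ico (0 : ℝ) 1 ∧ F p.2 = p.1} :=
        (measurable_snd measurableSet_Ico).inter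
          (measurableSet_eq_fun (hF.cont.measurable.comp measurable_snd) measurable_fst)
      rw [ae_map_iff (hF.cont.measurable.prodMk measurable_id').aemeasurable hm]
      have hI : ∀ᵐ v ∂lam, v ∈ Ico (0 : ℝ) 1 := ae_restrict_mem measurableSet_Ico
      filter_upwards [hI] with v hv
      exact ⟨hv, rfl⟩
    exact Measure.ae_ae_of_ae_compProd h5
  filter_upwards [h1, h2, h3, h4] with y a1 a2 a3 a4
  exact ⟨a1, a2, a3, a4⟩

section good

variable {y : ℝ} (hy : GoodPt F y)

include hy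

theorem GoodPt.ne_zero : ∀ᶠ n in atTop, XE F univ y n ≠ 0 := by
  have h1 : ∀ᶠ n in atTop, (0 : ℝ≥0∞) < XE F univ y n / XE F univ y n :=
    hy.pos.eventually (lt_mem_nhds one_pos)
  filter_upwards [h1] with n hn h0
  rw [h0] at hn
  simp at hn

theorem GoodPt.le_of_ev {E : Set ℝ} {k q : ℝ≥0∞}
    (hk : Tendsto (fun n : ℕ => XE F E y n / XE F univ y n) atTop (𝓝 k))
    (h : ∃ N, ∀ n, N ≤ n → XE F E y n ≤ q * XE F univ y n) : k ≤ q := by
  refine le_of_tendsto hk ?_
  filter_upwards [eventually_atTop.mpr h, hy.ne_zero] with n h1 h2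
  rw [ENNReal.div_le_iff h2 (measure_ne_top _ _)]
  exact h1

theorem GoodPt.ev_of_lt {E : Set ℝ} {k q : ℝ≥0∞}
    (hk : Tendsto (fun n : ℕ => XE F E y n / XE F univ y n) atTop (𝓝 k)) (h : k < q) :
    ∃ N, ∀ n, N ≤ n → XE F E y n ≤ q * XE F univ y n := by
  rw [← eventually_atTop]
  filter_upwards [hk.eventually (gt_mem_nhds h), hy.ne_zero] with n h1 h2
  exact (ENNReal.div_le_iff h2 (measure_ne_top _ _)).mp h1.le

theorem GoodPt.ge_of_ev {E : Set ℝ} {k q : ℝ≥0∞}
    (hk : Tendsto (fun n : ℕ => XE F E y n / XE F univ y n) atTop (𝓝 k))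
    (h : ∃ N, ∀ n, N ≤ n → q * XE F univ y n ≤ XE F E y n) : q ≤ k := by
  refine ge_of_tendsto hk ?_
  filter_upwards [eventually_atTop.mpr h, hy.ne_zero] with n h1 h2
  rw [ENNReal.le_div_iff_mul_le (Or.inl h2) (Or.inl (measure_ne_top _ _))]
  exact h1

theorem GoodPt.ev_of_gt {E : Set ℝ} {k q : ℝ≥0∞}
    (hk : Tendsto (fun n : ℕ => XE F E y n / XE F univ y n) atTop (𝓝 k)) (h : q < k) :
    ∃ N, ∀ n, N ≤ n → q * XE F univ y n ≤ XE F E y n := by
  rw [← eventually_atTop]
  filter_upwards [hk.eventually (lt_mem_nhds h), hy.ne_zero] with n h1 h2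
  exact (ENNReal.le_div_iff_mul_le (Or.inl h2) (Or.inl (measure_ne_top _ _))).mp h1.le

theorem GoodPt.conc_iff {S : Set ℝ} (h : ∀ v ∈ S, ¬ (v ∈ Ico (0 : ℝ) 1 ∧ F v = y)) :
    kap F y S = 0 := measure_mono_null h hy.conc

end good

theorem tendsto_cells {v : ℝ} (hv : v ∈ Ico (0 : ℝ) 1) (m : Measure ℝ) [IsFiniteMeasure m]
    (hm : m (Ico (0 : ℝ) 1)ᶜ = 0) :
    Tendsto (fun l => m {v' | dig v' l = dig v l}) atTop (𝓝 (m {v})) := by
  have h1 : ∀ l, m {v' | dig v' l = dig v l} = m (Ico (0 : ℝ) 1 ∩ {v' | dig v' l = dig v l}) := by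
    intro l
    apply le_antisymm
    · calc m {v' | dig v' l = dig v l} ≤
          m ((Ico (0 : ℝ) 1 ∩ {v' | dig v' l = dig v l}) ∪ (Ico (0 : ℝ) 1)ᶜ) := by
            apply measure_mono
            intro v' hv'
            by_cases h : v' ∈ Ico (0 : ℝ) 1
            · exact Or.inl ⟨h, hv'⟩
            · exact Or.inr h
        _ ≤ _ := measure_union_le _ _
        _ = _ := by rw [hm, add_zero]
    · exact measure_mono inter_subset_right
  have h2 : (⋂ l, Ico (0 : ℝ) 1 ∩ {v' | dig v' l = dig v l}) = {v} := by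
    ext v'
    rw [mem_iInter, mem_singleton_iff]
    constructor
    · intro h
      have h3 := tendsto_dig (h 0).1.1
      have h4 := tendsto_dig hv.1
      have h5 : (fun n => (dig v' n : ℝ) / 2 ^ n) = fun n => (dig v n : ℝ) / 2 ^ n := by
        funext n
        rw [show dig v' n = dig v n from (h n).2]
      rw [h5] at h3
      exact tendsto_nhds_unique h3 h4
    · rintro rfl l
      exact ⟨hv, rfl⟩
  simp only [h1]
  rw [← h2]
  apply tendsto_measure_iInter_atTop
  · intro l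
    exact (measurableSet_Ico.inter (measurableSet_dig (fun d => d = dig v l) l)).nullMeasurableSet
  · intro l n hln v' hv'
    refine ⟨hv'.1, ?_⟩
    show dig v' l = dig v l
    rw [dig_div hln, dig_div hln, show dig v' n = dig v n from hv'.2]
  · exact ⟨0, measure_ne_top _ _⟩

theorem GoodPt.compl {y : ℝ} (hy : GoodPt F y) : kap F y (Ico (0 : ℝ) 1)ᶜ = 0 :=
  hy.conc_iff fun _ hv h => hv h.1

theorem GoodPt.nonAtom_iff {y : ℝ} (hy : GoodPt F y) {v : ℝ} (hv : v ∈ Ico (0 : ℝ) 1)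
    (hFv : F v = y) : NonAtom F v ↔ kap F y {v} = 0 := by
  constructor
  · intro h
    have h1 : ∀ j : ℕ, kap F y {v} ≤ qe (1, j) := by
      intro j
      obtain ⟨m, hm⟩ := h j
      rw [hFv] at hm
      refine le_trans (measure_mono ?_) (hy.le_of_ev (hy.cell m (dig v m)) hm)
      rintro _ rfl
      rfl
    have h2 : Tendsto (fun j : ℕ => qe (1, j)) atTop (𝓝 0) := by
      have h3 : Tendsto (fun j : ℕ => ENNReal.ofReal (1 / ((j : ℝ) + 1))) atTop
          (𝓝 (ENNReal.ofReal 0)) :=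
        (ENNReal.continuous_ofReal.tendsto 0).comp tendsto_one_div_add_atTop_nhds_zero_nat
      rw [ENNReal.ofReal_zero] at h3
      refine h3.congr fun j => ?_
      simp [qe]
    exact le_antisymm (ge_of_tendsto' h2 h1) zero_le
  · intro h j
    have h1 := tendsto_cells hv (kap F y) hy.compl
    rw [h] at h1
    have h2 : (0 : ℝ≥0∞) < qe (1, j) := by
      rw [qe, ENNReal.ofReal_pos]
      positivity
    obtain ⟨m, hm⟩ := (h1.eventually (gt_mem_nhds h2)).exists
    refine ⟨m, ?_⟩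
    rw [hFv]
    exact hy.ev_of_lt (hy.cell m (dig v m)) hm

/-- The continuous part of the fibre measure. -/
noncomputable def mA (F : ℝ → ℝ) (y : ℝ) : Measure ℝ := (kap F y).restrict (NA F)

instance (y : ℝ) : IsFiniteMeasure (mA F y) := by
  unfold mA
  infer_instance

theorem GoodPt.nullSingleton {y : ℝ} (hy : GoodPt F y) : NullSingletonClass (mA F y) := by
  constructor
  intro v
  rw [mA, Measure.restrict_apply (measurableSet_singleton v)]
  by_cases h : v ∈ Ico (0 : ℝ) 1 ∧ F v = y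
  · by_cases h2 : NonAtom F v
    · exact measure_mono_null inter_subset_left ((hy.nonAtom_iff h.1 h.2).mp h2)
    · have : {v} ∩ NA F = ∅ := by
        rw [Set.eq_empty_iff_forall_notMem]
        rintro v' ⟨h3, h4⟩
        rw [mem_singleton_iff] at h3
        rw [h3] at h4
        exact h2 h4.2
      rw [this, measure_empty]
  · apply hy.conc_iff
    rintro v' ⟨h3, -⟩
    rw [mem_singleton_iff] at h3
    rw [h3]
    exact h

theorem dig_lt_imp {v v' : ℝ} {m : ℕ} (h : dig v' m < dig v m) : v' < v := by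
  by_contra hcon
  rw [not_lt] at hcon
  refine absurd (Nat.floor_le_floor ?_ : dig v m ≤ dig v' m) (not_le.mpr h)
  exact mul_le_mul_of_nonneg_right hcon (by positivity)

theorem exists_dig_lt {v v' : ℝ} (h0 : 0 ≤ v') (h : v' < v) : ∃ m, dig v' m < dig v m := by
  obtain ⟨m, hm⟩ := exists_pow_lt_of_lt_one (sub_pos.mpr h) (show (1 / 2 : ℝ) < 1 by norm_num)
  refine ⟨m, ?_⟩
  have h2 : (0 : ℝ) < 2 ^ m := by positivity
  have h3 : v' * 2 ^ m + 1 ≤ v * 2 ^ m := by
    have : (1 / 2 : ℝ) ^ m * 2 ^ m = 1 := by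
      rw [← mul_pow]
      norm_num
    nlinarith
  have h4 : dig v' m + 1 ≤ dig v m := by
    apply Nat.le_floor
    push_cast
    have := Nat.floor_le (show 0 ≤ v' * 2 ^ m by positivity)
    have h5 : (dig v' m : ℝ) ≤ v' * 2 ^ m := this
    linarith
  omega

theorem low_mono {v v' : ℝ} {l n : ℕ} (hln : l ≤ n) (h : dig v' l < dig v l) :
    dig v' n < dig v n := by
  by_contra hcon
  rw [not_lt] at hcon
  rw [dig_div hln, dig_div hln] at h
  exact absurd (Nat.div_le_div_right hcon) (not_le.mpr h)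

theorem GoodPt.tendsto_low {y : ℝ} (_hy : GoodPt F y) {v : ℝ} (_hv : v ∈ Ico (0 : ℝ) 1) :
    Tendsto (fun l => kap F y (NA F ∩ {v' | dig v' l < dig v l})) atTop
      (𝓝 (mA F y (Iio v))) := by
  have h1 : (⋃ l, NA F ∩ {v' | dig v' l < dig v l}) = Iio v ∩ NA F := by
    ext v'
    rw [mem_iUnion]
    constructor
    · rintro ⟨l, h2, h3⟩
      exact ⟨dig_lt_imp h3, h2⟩
    · rintro ⟨h2, h3⟩
      obtain ⟨l, hl⟩ := exists_dig_lt h3.1.1 h2
      exact ⟨l, h3, hl⟩
  rw [mA, Measure.restrict_apply measurableSet_Iio, ← h1]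
  apply tendsto_measure_iUnion_atTop
  intro l n hln v' hv'
  exact ⟨hv'.1, low_mono hln hv'.2⟩

theorem GoodPt.low_le {y : ℝ} (_hy : GoodPt F y) (v : ℝ) (l : ℕ) :
    kap F y (NA F ∩ {v' | dig v' l < dig v l}) ≤ mA F y (Iio v) := by
  rw [mA, Measure.restrict_apply measurableSet_Iio]
  apply measure_mono
  rintro v' ⟨h1, h2⟩
  exact ⟨dig_lt_imp h2, h1⟩

theorem qe_pow (i k : ℕ) : qe (i, 2 ^ k - 1) = ENNReal.ofReal ((i : ℝ) / 2 ^ k) := by
  rw [qe]
  congr 2
  have : 2 ^ k - 1 + 1 = 2 ^ k := Nat.sub_add_cancel Nat.one_le_two_pow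
  exact_mod_cast this

theorem le_of_forall_qe {a b : ℝ≥0∞} (h : ∀ t, b < qe t → a ≤ qe t) : a ≤ b := by
  by_contra hcon
  rw [not_le] at hcon
  obtain ⟨t, h1, h2⟩ := exists_qe_btwn hcon
  exact absurd (lt_of_lt_of_le h2 (h t h1)) (lt_irrefl _)

theorem ge_of_forall_qe {a b : ℝ≥0∞} (h : ∀ t, qe t < a → qe t ≤ b) : a ≤ b := by
  by_contra hcon
  rw [not_le] at hcon
  obtain ⟨t, h1, h2⟩ := exists_qe_btwn hcon
  exact absurd (lt_of_lt_of_le h1 (h t h2)) (lt_irrefl _)

theorem GoodPt.N1_iff {y : ℝ} (hy : GoodPt F y) {v : ℝ} (hv : v ∈ Ico (0 : ℝ) 1)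
    (hFv : F v = y) : N1 F v ↔ NonAtom F v ∧ Sparse (mA F y (Iio v)) := by
  unfold N1 Sparse
  apply and_congr_right
  intro _
  apply forall_congr'
  intro j
  apply exists_congr
  intro i
  rw [qe_pow, qe_pow, hFv, and_comm]
  have hj : j ^ 2 = j * j := sq j
  rw [hj]
  push_cast
  apply and_congr
  · constructor
    · intro h
      apply ge_of_forall_qe
      intro t ht
      obtain ⟨m, hm⟩ := h t ht
      exact (hy.ge_of_ev (hy.low m _) hm).trans (hy.low_le v m)
    · intro h a ha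
      have h1 : qe a < mA F y (Iio v) := ha.trans_le h
      obtain ⟨m, hm⟩ := ((hy.tendsto_low hv).eventually (lt_mem_nhds h1)).exists
      exact ⟨m, hy.ev_of_gt (hy.low m _) hm⟩
  · constructor
    · intro h
      refine le_of_tendsto' (hy.tendsto_low hv) (fun m => ?_)
      apply le_of_forall_qe
      intro t ht
      exact hy.le_of_ev (hy.low m _) (h m t ht)
    · intro h m b hb
      exact hy.ev_of_lt (hy.low m _) (((hy.low_le v m).trans h).trans_lt hb)

end Pool.Agent.Lib.MP_a8cc1b_lc
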