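import Pool.Agent.Lib.MP_a8cc1b_lc.D11

/-!
# Bounded branches and a compactness argument
-/

open Primrec Set

namespace Pool.Agent.Lib.MP_a8cc1b_lc

/-- All sequences of naturals bounded pointwise by a given sequence. -/
def allBelow (hs : List ℕ) : List (List ℕ) :=
  hs.foldr (fun h acc => (List.range (h + 1)).flatMap (fun i => acc.map (List.cons i))) [[]]

theorem primrec_allBelow : Primrec allBelow := by
  have h1 : Primrec₂ fun (q : (List ℕ × (ℕ × List (List ℕ)))) (i : ℕ) =>
      q.2.2.map (List.cons i) := by
    refine list_map (snd.comp (snd.comp fst)) ?_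
    exact (list_cons.comp (snd.comp fst) snd).to₂
  have h2 : Primrec₂ fun (_ : List ℕ) (q : ℕ × List (List ℕ)) =>
      (List.range (q.1 + 1)).flatMap (fun i => q.2.map (List.cons i)) :=
    (list_flatMap (list_range.comp (Primrec.succ.comp (fst.comp snd))) h1).to₂
  exact list_foldr Primrec.id (Primrec.const [[]]) h2

theorem mem_allBelow {hs t : List ℕ} : t ∈ allBelow hs ↔ List.Forall₂ (· ≤ ·) t hs := by
  induction hs generalizing t with
  | nil => simp [allBelow]
  | cons h hs IH =>
    have : allBelow (h :: hs) = (List.range (h + 1)).flatMap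
      (fun i => (allBelow hs).map (List.cons i)) := rfl
    rw [this]
    simp only [List.mem_flatMap, List.mem_range, List.mem_map]
    constructor
    · rintro ⟨i, hi, s, hs', rfl⟩
      exact List.Forall₂.cons (Nat.lt_succ_iff.mp hi) (IH.mp hs')
    · intro ht
      cases ht with
      | @cons i _ s _ h1 h2 => exact ⟨i, Nat.lt_succ_of_le h1, s, IH.mpr h2, rfl⟩

theorem pre_mem_allBelow {w h : ℕ → ℕ} {n : ℕ} (hw : ∀ i < n, w i ≤ h i) :
    pre w n ∈ allBelow (pre h n) := by
  rw [mem_allBelow]
  induction n with
  | zero => simp [pre]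
  | succ n IH =>
    rw [pre_succ, pre_succ]
    refine List.rel_append (IH fun i hi => hw i (Nat.lt_succ_of_lt hi)) ?_
    exact List.Forall₂.cons (hw n (Nat.lt_succ_self n)) List.Forall₂.nil

theorem exists_pre_eq {t : List ℕ} {h : ℕ → ℕ} {n : ℕ} (ht : t ∈ allBelow (pre h n)) :
    ∃ w : ℕ → ℕ, (∀ i, w i ≤ h i) ∧ pre w n = t := by
  rw [mem_allBelow] at ht
  have hlen : t.length = n := by
    rw [ht.length_eq, length_pre]
  refine ⟨fun i => t.getD i 0, ?_, ?_⟩
  · intro i
    by_cases hi : i < n
    · have h1 : t.getD i 0 ≤ (pre h n).getD i 0 := by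
        have hi1 : i < t.length := by omega
        have hi2 : i < (pre h n).length := by rw [length_pre]; exact hi
        have := ht.get hi1 hi2
        rw [List.getD_eq_getElem _ _ hi1, List.getD_eq_getElem _ _ hi2]
        simpa using this
      rwa [pre_getD h 0 _ _ hi] at h1
    · have : t.getD i 0 = 0 := by
        simp only [List.getD]
        rw [List.getElem?_eq_none (by omega)]
        rfl
      change t.getD i 0 ≤ h i
      rw [this]
      exact Nat.zero_le _
  · apply List.ext_getElem
    · simp [hlen]
    · intro i h1 h2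
      simp [pre, List.getD, h2]

theorem isClosed_pre (Q : List ℕ → Prop) (l : ℕ) : IsClosed {w : ℕ → ℕ | Q (pre w l)} := by
  rw [← isOpen_compl_iff, isOpen_iff_forall_mem_open]
  intro w0 hw0
  refine ⟨⋂ i ∈ Finset.range l, {w : ℕ → ℕ | w i = w0 i}, ?_, ?_, ?_⟩
  · intro w hw
    have : pre w l = pre w0 l := by
      simp only [pre]
      apply List.map_congr_left
      intro i hi
      simp only [mem_iInter] at hw
      exact hw i (Finset.mem_range.mpr (List.mem_range.mp hi))
    rw [mem_compl_iff, Set.mem_ofPred_eq, this]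
    exact hw0
  · apply isOpen_biInter_finset
    intro i _
    have h1 : {w : ℕ → ℕ | w i = w0 i} = (fun w : ℕ → ℕ => w i) ⁻¹' {w0 i} := by
      ext w; simp
    rw [h1]
    exact (isOpen_discrete _).preimage (continuous_apply i)
  · simp

/-- Compactness: if for every `n` there is a bounded sequence of length `n` that is good up to `n`,
then there is an infinite bounded good sequence. -/
theorem konig (Q : ℕ → List ℕ → Prop) (h : ℕ → ℕ)
    (H : ∀ n, ∃ t ∈ allBelow (pre h n), ∀ l < n + 1, Q l (t.take l)) :
    ∃ w : ℕ → ℕ, ∀ n, Q n (pre w n) := by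
  let K : Set (ℕ → ℕ) := Set.pi Set.univ (fun i => Set.Iic (h i))
  have hK : IsCompact K := isCompact_univ_pi (fun i => (Set.finite_Iic (h i)).isCompact)
  have hKc : IsClosed K := hK.isClosed
  let W : ℕ → Set (ℕ → ℕ) := fun n => K ∩ ⋂ l ∈ Finset.range (n + 1), {w | Q l (pre w l)}
  have hW : (⋂ n, W n).Nonempty := by
    apply IsCompact.nonempty_iInter_of_sequence_nonempty_isCompact_isClosed
    · intro n w hw
      refine ⟨hw.1, ?_⟩
      have := hw.2
      simp only [mem_iInter, Finset.mem_range] at this ⊢
      intro l hl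
      exact this l (by omega)
    · intro n
      obtain ⟨t, ht, htQ⟩ := H n
      obtain ⟨w, hwh, hwt⟩ := exists_pre_eq ht
      refine ⟨w, fun i _ => hwh i, ?_⟩
      simp only [mem_iInter, Finset.mem_range]
      intro l hl
      have h1 := htQ l hl
      rw [← hwt, pre_take _ _ _ (Nat.lt_succ_iff.mp hl)] at h1
      exact h1
    · apply hK.inter_right
      apply isClosed_biInter
      intro l _
      exact isClosed_pre (Q l) l
    · intro n
      apply hKc.inter
      apply isClosed_biInter
      intro l _
      exact isClosed_pre (Q l) l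
  obtain ⟨w, hw⟩ := hW
  refine ⟨w, fun n => ?_⟩
  have h1 := (mem_iInter.mp hw n).2
  simp only [mem_iInter, Finset.mem_range] at h1
  exact h1 n (Nat.lt_succ_self n)

end Pool.Agent.Lib.MP_a8cc1b_lc
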