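import Pool.Agent.Lib.MP_a8cc1b_lc.Dig

/-!
# The measure quantifier
-/

open Primrec Set MeasureTheory

open scoped ENNReal

namespace Pool.Agent.Lib.MP_a8cc1b_lc

variable {α : Type} [Primcodable α] {β : Type} [Primcodable β]

/-- The relation at level `n`: the cell `c` of level `n` is not excluded below the bounds `hs`. -/
def Good (P : α × List ℕ × List ℕ → Prop) (a : α) (hs : List ℕ) (c : ℕ) : Prop :=
  ∃ t ∈ allBelow hs, ∀ l < hs.length + 1, P (a, (cellPre hs.length c).take l, t.take l)

theorem primrec_good {P : α × List ℕ × List ℕ → Prop} (hP : PrimrecPred P) :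
    PrimrecPred fun q : α × List ℕ × ℕ => Good P q.1 q.2.1 q.2.2 := by
  have h1 : PrimrecRel fun (l : ℕ) (r : List ℕ × α × List ℕ × ℕ) =>
      P (r.2.1, (cellPre r.2.2.1.length r.2.2.2).take l, r.1.take l) := by
    apply hP.comp
    have hlen : Primrec fun q : ℕ × List ℕ × α × List ℕ × ℕ => q.2.2.2.1.length :=
      list_length.comp (fst.comp (snd.comp (snd.comp snd)))
    have hcell : Primrec fun q : ℕ × List ℕ × α × List ℕ × ℕ =>
        cellPre q.2.2.2.1.length q.2.2.2.2 :=
      primrec_cellPre.comp hlen (snd.comp (snd.comp (snd.comp snd)))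
    exact (fst.comp (snd.comp snd)).pair ((list_take.comp fst hcell).pair
      (list_take.comp fst (fst.comp snd)))
  have h2 : PrimrecPred fun (r : List ℕ × α × List ℕ × ℕ) =>
      ∀ l < r.2.2.1.length + 1,
        P (r.2.1, (cellPre r.2.2.1.length r.2.2.2).take l, r.1.take l) :=
    primrecPred_forall_lt h1 (Primrec.succ.comp (list_length.comp (fst.comp (snd.comp snd))))
  have h3 : PrimrecRel fun (t : List ℕ) (q : α × List ℕ × ℕ) =>
      ∀ l < q.2.1.length + 1,
        P (q.1, (cellPre q.2.1.length q.2.2).take l, t.take l) := h2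
  exact (h3.exists_mem_list.comp (primrec_allBelow.comp (fst.comp snd)) Primrec.id).of_eq
    (fun q => Iff.rfl)

open Classical in
/-- The number of good cells. -/
noncomputable def goodCount (P : α × List ℕ × List ℕ → Prop) (a : α) (hs : List ℕ) : ℕ :=
  ((List.range (2 ^ hs.length)).filter (fun c => Good P a hs c)).length

theorem primrec_goodCount {P : α × List ℕ × List ℕ → Prop} (hP : PrimrecPred P) :
    Primrec₂ (goodCount P) := by
  classical
  have h1 : PrimrecRel fun (c : ℕ) (q : α × List ℕ) => Good P q.1 q.2 c := by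
    have := (primrec_good hP).comp (f := fun r : ℕ × α × List ℕ => (r.2.1, r.2.2, r.1))
      ((fst.comp snd).pair ((snd.comp snd).pair fst))
    exact this
  have h2 := h1.listFilter
  have h3 : Primrec fun q : α × List ℕ =>
      ((List.range (2 ^ q.2.length)).filter (fun c => decide (Good P q.1 q.2 c))).length :=
    list_length.comp (h2.comp (list_range.comp (primrec_pow2.comp (list_length.comp snd)))
      Primrec.id)
  refine Primrec₂.of_eq (f := fun a hs => goodCount P a hs) ?_ (fun _ _ => rfl)
  refine (h3.to₂).of_eq ?_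
  intro a hs
  rfl

theorem lam_good (P : α × List ℕ × List ℕ → Prop) (a : α) (hs : List ℕ) :
    lam {v | Good P a hs (dig v hs.length)} = qe (goodCount P a hs, 2 ^ hs.length - 1) := by
  classical
  exact lam_dig (fun c => Good P a hs c) hs.length

theorem good_dig_iff (P : α × List ℕ × List ℕ → Prop) (a : α) (h : ℕ → ℕ) (n : ℕ) (v : ℝ) :
    Good P a (pre h n) (dig v (pre h n).length) ↔
      ∃ t ∈ allBelow (pre h n), ∀ l < n + 1, P (a, pre (dig v) l, t.take l) := by
  unfold Good
  rw [length_pre, cellPre_dig]
  apply exists_congr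
  intro t
  apply and_congr_right
  intro _
  apply forall_congr'
  intro l
  apply forall_congr'
  intro hl
  rw [pre_take _ _ _ (Nat.lt_succ_iff.mp hl)]

theorem S11.measure {D : (ℕ → ℕ) → α → Prop} (hD : S11 D) :
    S11 (fun (_ : ℕ → ℕ) (p : α × (ℕ × ℕ)) => qe p.2 < lam {v | D (dig v) p.1}) := by
  classical
  obtain ⟨P, hP, hD⟩ := hD
  have h1 : S11 (fun (_ : ℕ → ℕ) (p : (α × (ℕ × ℕ)) × (ℕ × ℕ)) => p.1.2.1 * (p.2.2 + 1) <
      p.2.1 * (p.1.2.2 + 1) ∧ ∃ h : ℕ → ℕ, ∀ n, p.2.1 * 2 ^ (pre h n).length ≤
        goodCount P p.1.1 (pre h n) * (p.2.2 + 1)) := by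
    apply S11.and
    · apply S11.of_primrec
      exact nat_lt.comp (nat_mul.comp (fst.comp (snd.comp fst)) (Primrec.succ.comp (snd.comp snd)))
        (nat_mul.comp (fst.comp snd) (Primrec.succ.comp (snd.comp (snd.comp fst))))
    · refine ⟨fun q => q.1.2.1 * 2 ^ q.2.2.length ≤ goodCount P q.1.1.1 q.2.2 * (q.1.2.2 + 1),
        ?_, ?_⟩
      · refine nat_le.comp (nat_mul.comp (fst.comp (snd.comp fst))
          (primrec_pow2.comp (list_length.comp (snd.comp snd)))) (nat_mul.comp ?_
          (Primrec.succ.comp (snd.comp (snd.comp fst))))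
        exact (primrec_goodCount hP).comp (fst.comp (fst.comp fst)) (snd.comp snd)
      · intro x p
        exact Iff.rfl
  refine h1.exB.of_iff ?_
  rintro - ⟨a, t⟩
  -- measure of the finite approximations
  have hmeas : ∀ (hs : List ℕ) (t' : ℕ × ℕ), qe t' ≤ lam {v | Good P a hs (dig v hs.length)} ↔
      t'.1 * 2 ^ hs.length ≤ goodCount P a hs * (t'.2 + 1) := by
    intro hs t'
    rw [lam_good, ← not_lt, qe_lt_iff, not_lt]
    simp only
    have : 2 ^ hs.length - 1 + 1 = 2 ^ hs.length := Nat.sub_add_cancel Nat.one_le_two_pow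
    rw [this]
  constructor
  · intro hlt
    obtain ⟨t', h1, h2⟩ := exists_qe_btwn hlt
    refine ⟨t', (qe_lt_iff _ _).mp h1, ?_⟩
    -- the sets with bounded witnesses
    let S : List ℕ → Set ℝ := fun hs => {v | ∃ w : ℕ → ℕ, (∀ i < hs.length, w i ≤ hs.getD i 0) ∧
      ∀ n, P (a, pre (dig v) n, pre w n)}
    have hS0 : S [] = {v | D (dig v) a} := by
      ext v
      simp only [S, Set.mem_ofPred_eq, List.length_nil, not_lt_zero', false_imp_iff,
        forall_const, true_and]
      exact (hD _ _).symm
    have hstep : ∀ hs : List ℕ, qe t' < lam (S hs) → ∃ k, qe t' < lam (S (hs ++ [k])) := by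
      intro hs h3
      have h4 : S hs = ⋃ k, S (hs ++ [k]) := by
        ext v
        simp only [S, Set.mem_ofPred_eq, mem_iUnion]
        constructor
        · rintro ⟨w, hw, hw'⟩
          refine ⟨w hs.length, w, ?_, hw'⟩
          intro i hi
          rw [List.length_append, List.length_singleton] at hi
          rcases (Nat.lt_succ_iff.mp hi).eq_or_lt with h5 | h5
          · rw [h5, List.getD_append_right _ _ _ _ le_rfl]
            simp
          · rw [List.getD_append _ _ _ _ h5]
            exact hw i h5
        · rintro ⟨k, w, hw, hw'⟩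
          refine ⟨w, ?_, hw'⟩
          intro i hi
          have := hw i (by rw [List.length_append]; omega)
          rwa [List.getD_append _ _ _ _ hi] at this
      have hmono : Monotone fun k => S (hs ++ [k]) := by
        intro k k' hk v hv
        obtain ⟨w, hw, hw'⟩ := hv
        refine ⟨w, ?_, hw'⟩
        intro i hi
        have hi' : i < (hs ++ [k]).length := by simpa using hi
        have := hw i hi'
        rw [List.length_append, List.length_singleton] at hi
        rcases (Nat.lt_succ_iff.mp hi).eq_or_lt with h5 | h5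
        · rw [h5, List.getD_append_right _ _ _ _ le_rfl] at this ⊢
          simp only [Nat.sub_self, List.getD_cons_zero] at this ⊢
          exact this.trans hk
        · rw [List.getD_append _ _ _ _ h5] at this ⊢
          exact this
      rw [h4, hmono.measure_iUnion] at h3
      exact lt_iSup_iff.mp h3
    choose! k hk using hstep
    let hseq : ℕ → List ℕ := fun n => Nat.rec [] (fun _ hs => hs ++ [k hs]) n
    have hseq_succ : ∀ n, hseq (n + 1) = hseq n ++ [k (hseq n)] := fun n => rfl
    have hpre : ∀ n, hseq n = pre (fun i => k (hseq i)) n := by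
      intro n
      induction n with
      | zero => rfl
      | succ n IH => rw [hseq_succ, pre_succ, ← IH]
    have hlt' : ∀ n, qe t' < lam (S (hseq n)) := by
      intro n
      induction n with
      | zero =>
        change qe t' < lam (S [])
        rw [hS0]
        exact h2
      | succ n IH =>
        rw [hseq_succ]
        exact hk _ IH
    refine ⟨fun i => k (hseq i), fun n => ?_⟩
    rw [← hmeas]
    refine (hlt' n).le.trans (measure_mono ?_)
    rw [hpre n]
    rintro v ⟨w, hw, hw'⟩
    rw [Set.mem_ofPred_eq, good_dig_iff]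
    refine ⟨pre w n, pre_mem_allBelow ?_, ?_⟩
    · intro i hi
      have := hw i (by rw [length_pre]; exact hi)
      rwa [pre_getD _ _ _ _ hi] at this
    · intro l hl
      rw [pre_take _ _ _ (Nat.lt_succ_iff.mp hl)]
      exact hw' l
  · rintro ⟨t', h1, h, h2⟩
    have h1' : qe t < qe t' := (qe_lt_iff _ _).mpr h1
    refine h1'.trans_le ?_
    have h3 : ∀ n, qe t' ≤ lam {v | Good P a (pre h n) (dig v (pre h n).length)} := by
      intro n
      rw [hmeas]
      exact h2 n
    -- the decreasing sets
    let E : ℕ → Set ℝ := fun n => {v | Good P a (pre h n) (dig v (pre h n).length)}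
    have hE : Antitone E := by
      apply antitone_nat_of_succ_le
      intro n v hv
      rw [Set.mem_ofPred_eq, good_dig_iff] at hv ⊢
      obtain ⟨s, hs, hs'⟩ := hv
      obtain ⟨w, hw, rfl⟩ := exists_pre_eq hs
      refine ⟨pre w n, pre_mem_allBelow (fun i _ => hw i), ?_⟩
      intro l hl
      have := hs' l (by omega)
      rw [pre_take _ _ _ (by omega)] at this
      rwa [pre_take _ _ _ (by omega)]
    have h4 : lam (⋂ n, E n) = ⨅ n, lam (E n) := by
      apply hE.measure_iInter
      · intro n
        exact (measurableSet_dig (fun c => Good P a (pre h n) c) _).nullMeasurableSet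
      · exact ⟨0, measure_ne_top _ _⟩
    have h5 : qe t' ≤ lam (⋂ n, E n) := by
      rw [h4]
      exact le_iInf h3
    refine h5.trans (measure_mono ?_)
    intro v hv
    have h6 : ∀ n, ∃ t ∈ allBelow (pre h n), ∀ l < n + 1, P (a, pre (dig v) l, t.take l) := by
      intro n
      have := mem_iInter.mp hv n
      rwa [Set.mem_ofPred_eq, good_dig_iff] at this
    obtain ⟨w, hw⟩ := konig (fun l t => P (a, pre (dig v) l, t)) h h6
    exact (hD _ _).mpr ⟨w, hw⟩

end Pool.Agent.Lib.MP_a8cc1b_lc
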