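import Pool.Agent.Lib.MP_a8cc1b_lc.Ball

/-!
# The two hyperarithmetic null sets attached to a function
-/

open Primrec Set MeasureTheory Filter Topology

open scoped ENNReal

namespace Pool.Agent.Lib.MP_a8cc1b_lc

/-- The measure of the part of `E` mapped into the closed ball of radius `1/(n+1)` around `y`. -/
noncomputable def XE (F : ℝ → ℝ) (E : Set ℝ) (y : ℝ) (n : ℕ) : ℝ≥0∞ :=
  lam {v' | v' ∈ E ∧ |F v' - y| ≤ 1 / ((n : ℝ) + 1)}

/-- The fibre measure at `F v` has no atom at `v`. -/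
def NonAtom (F : ℝ → ℝ) (v : ℝ) : Prop :=
  ∀ j : ℕ, ∃ m N : ℕ, ∀ n, N ≤ n →
    XE F {v' | dig v' m = dig v m} (F v) n ≤ qe (1, j) * XE F univ (F v) n

/-- The nonatomic points strictly below the cell `c` of level `m`. -/
def lowSet (F : ℝ → ℝ) (m c : ℕ) : Set ℝ := {v' | NonAtom F v' ∧ dig v' m < c}

/-- The image measure has lower density zero at `F v`. -/
def N0 (F : ℝ → ℝ) (v : ℝ) : Prop :=
  ∀ j : ℕ, ∃ N : ℕ, ∀ n, N ≤ n → XE F univ (F v) n ≤ qe (1, (j + 1) * (n + 1) - 1)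

/-- The point `v` is a non-atom of its fibre and the fibre mass below `v` is sparse. -/
def N1 (F : ℝ → ℝ) (v : ℝ) : Prop :=
  NonAtom F v ∧ ∀ j : ℕ, ∃ i : ℕ,
    (∀ m : ℕ, ∀ b : ℕ × ℕ, qe (i * 2 ^ j + 1, 2 ^ (j * j + j) - 1) < qe b → ∃ N, ∀ n, N ≤ n →
      XE F (lowSet F m (dig v m)) (F v) n ≤ qe b * XE F univ (F v) n) ∧
    (∀ a : ℕ × ℕ, qe a < qe (i, 2 ^ (j * j) - 1) → ∃ m N : ℕ, ∀ n, N ≤ n →
      qe a * XE F univ (F v) n ≤ XE F (lowSet F m (dig v m)) (F v) n)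

variable {F : ℝ → ℝ}

theorem rf_univ (hF : FData F) : RF (fun v (n : ℕ) => XE F univ (F v) n) := by
  have h1 : RD (fun (_ : ℝ) (_ : Unit) => True) :=
    (RD.of_primrec (p := fun _ : Unit => (0 : ℕ) = 0)
      (Primrec.eq.comp (Primrec.const 0) (Primrec.const 0))).of_iff (fun _ _ _ => by simp)
  exact (RF.ball hF h1).comp (g := fun n : ℕ => ((), n)) ((Primrec.const ()).pair Primrec.id)

theorem rf_cell (hF : FData F) :
    RF (fun v (p : ℕ × ℕ) => XE F {v' | dig v' p.1 = dig v p.1} (F v) p.2) := by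
  have h1 : RD (fun v' (e : ℕ × ℕ) => dig v' e.1 = e.2) :=
    RD.eval (α := ℕ × ℕ) (p := fun q => q.2 = q.1.2)
      (Primrec.eq.comp snd (snd.comp fst)) (g := fun a => a.1) fst
  have h2 := (RF.ball hF h1).comp (g := fun p : (ℕ × ℕ) × ℕ => ((p.1.1, p.2), p.1.2))
    (((fst.comp fst).pair snd).pair (snd.comp fst))
  exact h2.subst (g := fun p : ℕ × ℕ => p.1) fst

theorem rd_nonAtom (hF : FData F) : RD (fun v (_ : Unit) => NonAtom F v) := by
  have h1 : RD (fun v (p : (((Unit × ℕ) × ℕ) × ℕ) × ℕ) =>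
      XE F {v' | dig v' p.1.1.2 = dig v p.1.1.2} (F v) p.2 ≤
        qe (1, p.1.1.1.2) * XE F univ (F v) p.2) := by
    apply RF.le
    · exact (rf_cell hF).comp (g := fun p : (((Unit × ℕ) × ℕ) × ℕ) × ℕ => (p.1.1.2, p.2))
        ((snd.comp (fst.comp fst)).pair snd)
    · apply RF.mul_const (g := fun p : (((Unit × ℕ) × ℕ) × ℕ) × ℕ => (1, p.1.1.1.2))
      · exact (rf_univ hF).comp (g := fun p : (((Unit × ℕ) × ℕ) × ℕ) × ℕ => p.2) snd
      · exact (Primrec.const 1).pair (snd.comp (fst.comp (fst.comp fst)))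
  have h2 : RD (fun v (p : (((Unit × ℕ) × ℕ) × ℕ) × ℕ) => p.1.2 ≤ p.2 →
      XE F {v' | dig v' p.1.1.2 = dig v p.1.1.2} (F v) p.2 ≤
        qe (1, p.1.1.1.2) * XE F univ (F v) p.2) :=
    RD.imp (RD.of_primrec (nat_le.comp (snd.comp fst) snd)) h1
  exact h2.all.ex.ex.all

theorem rf_low (hF : FData F) :
    RF (fun v (p : ℕ × ℕ) => XE F (lowSet F p.1 (dig v p.1)) (F v) p.2) := by
  have h1 : RD (fun v' (e : ℕ × ℕ) => NonAtom F v' ∧ dig v' e.1 < e.2) := by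
    apply RD.and
    · exact (rd_nonAtom hF).comp (g := fun _ : ℕ × ℕ => ()) (Primrec.const ())
    · exact RD.eval (α := ℕ × ℕ) (p := fun q => q.2 < q.1.2)
        (nat_lt.comp snd (snd.comp fst)) (g := fun a => a.1) fst
  have h2 := (RF.ball hF h1).comp (g := fun p : (ℕ × ℕ) × ℕ => ((p.1.1, p.2), p.1.2))
    (((fst.comp fst).pair snd).pair (snd.comp fst))
  exact h2.subst (g := fun p : ℕ × ℕ => p.1) fst

theorem rd_N0 (hF : FData F) : RD (fun v (_ : Unit) => N0 F v) := by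
  have h1 : RD (fun v (p : ((Unit × ℕ) × ℕ) × ℕ) =>
      XE F univ (F v) p.2 ≤ qe (1, (p.1.1.2 + 1) * (p.2 + 1) - 1)) := by
    apply RF.le
    · exact (rf_univ hF).comp (g := fun p : ((Unit × ℕ) × ℕ) × ℕ => p.2) snd
    · apply RF.const (g := fun p : ((Unit × ℕ) × ℕ) × ℕ => (1, (p.1.1.2 + 1) * (p.2 + 1) - 1))
      exact (Primrec.const 1).pair (nat_sub.comp (nat_mul.comp
        (Primrec.succ.comp (snd.comp (fst.comp fst))) (Primrec.succ.comp snd)) (Primrec.const 1))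
  have h2 : RD (fun v (p : ((Unit × ℕ) × ℕ) × ℕ) => p.1.2 ≤ p.2 →
      XE F univ (F v) p.2 ≤ qe (1, (p.1.1.2 + 1) * (p.2 + 1) - 1)) :=
    RD.imp (RD.of_primrec (nat_le.comp (snd.comp fst) snd)) h1
  exact h2.all.ex.all

theorem rd_N1 (hF : FData F) : RD (fun v (_ : Unit) => N1 F v) := by
  apply RD.and (rd_nonAtom hF)
  -- upper part, parameters `((((), j), i), (m, b))`, then `N`, `n`
  have a1 : RD (fun v (p : (((((Unit × ℕ) × ℕ) × ℕ) × (ℕ × ℕ)) × ℕ) × ℕ) => p.1.2 ≤ p.2 →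
      XE F (lowSet F p.1.1.1.2 (dig v p.1.1.1.2)) (F v) p.2 ≤
        qe p.1.1.2 * XE F univ (F v) p.2) := by
    apply RD.imp (RD.of_primrec (nat_le.comp (snd.comp fst) snd))
    apply RF.le
    · exact (rf_low hF).comp
        (g := fun p : (((((Unit × ℕ) × ℕ) × ℕ) × (ℕ × ℕ)) × ℕ) × ℕ => (p.1.1.1.2, p.2))
        ((snd.comp (fst.comp (fst.comp fst))).pair snd)
    · apply RF.mul_const (g := fun p : (((((Unit × ℕ) × ℕ) × ℕ) × (ℕ × ℕ)) × ℕ) × ℕ => p.1.1.2)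
      · exact (rf_univ hF).comp
          (g := fun p : (((((Unit × ℕ) × ℕ) × ℕ) × (ℕ × ℕ)) × ℕ) × ℕ => p.2) snd
      · exact snd.comp (fst.comp fst)
  have a2 : RD (fun v (p : (((Unit × ℕ) × ℕ) × ℕ) × (ℕ × ℕ)) =>
      qe (p.1.1.2 * 2 ^ p.1.1.1.2 + 1, 2 ^ (p.1.1.1.2 * p.1.1.1.2 + p.1.1.1.2) - 1) < qe p.2 →
      ∃ N, ∀ n, N ≤ n → XE F (lowSet F p.1.2 (dig v p.1.2)) (F v) n ≤
        qe p.2 * XE F univ (F v) n) := by
    refine RD.imp (RD.of_primrec (primrec_qe_lt.comp (Primrec.pair (Primrec.pair ?_ ?_) snd)))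
      a1.all.ex
    · exact Primrec.succ.comp (nat_mul.comp (snd.comp (fst.comp fst))
        (primrec_pow2.comp (snd.comp (fst.comp (fst.comp fst)))))
    · have hj : Primrec fun p : (((Unit × ℕ) × ℕ) × ℕ) × (ℕ × ℕ) => p.1.1.1.2 :=
        snd.comp (fst.comp (fst.comp fst))
      exact nat_sub.comp (primrec_pow2.comp (nat_add.comp (nat_mul.comp hj hj) hj))
        (Primrec.const 1)
  have a3 := a2.all.all
  -- lower part, parameters `((((), j), i), a)`, then `m`, `N`, `n`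
  have b1 : RD (fun v (p : (((((Unit × ℕ) × ℕ) × (ℕ × ℕ)) × ℕ) × ℕ) × ℕ) => p.1.2 ≤ p.2 →
      qe p.1.1.1.2 * XE F univ (F v) p.2 ≤
        XE F (lowSet F p.1.1.2 (dig v p.1.1.2)) (F v) p.2) := by
    apply RD.imp (RD.of_primrec (nat_le.comp (snd.comp fst) snd))
    apply RF.le
    · apply RF.mul_const (g := fun p : (((((Unit × ℕ) × ℕ) × (ℕ × ℕ)) × ℕ) × ℕ) × ℕ => p.1.1.1.2)
      · exact (rf_univ hF).comp
          (g := fun p : (((((Unit × ℕ) × ℕ) × (ℕ × ℕ)) × ℕ) × ℕ) × ℕ => p.2) snd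
      · exact snd.comp (fst.comp (fst.comp fst))
    · exact (rf_low hF).comp
        (g := fun p : (((((Unit × ℕ) × ℕ) × (ℕ × ℕ)) × ℕ) × ℕ) × ℕ => (p.1.1.2, p.2))
        ((snd.comp (fst.comp fst)).pair snd)
  have b2 : RD (fun v (p : ((Unit × ℕ) × ℕ) × (ℕ × ℕ)) =>
      qe p.2 < qe (p.1.2, 2 ^ (p.1.1.2 * p.1.1.2) - 1) →
      ∃ m N, ∀ n, N ≤ n → qe p.2 * XE F univ (F v) n ≤
        XE F (lowSet F m (dig v m)) (F v) n) := by
    refine RD.imp (RD.of_primrec (primrec_qe_lt.comp (snd.pair (Primrec.pair ?_ ?_))))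
      b1.all.ex.ex
    · exact snd.comp fst
    · have hj : Primrec fun p : ((Unit × ℕ) × ℕ) × (ℕ × ℕ) => p.1.1.2 :=
        snd.comp (fst.comp fst)
      exact nat_sub.comp (primrec_pow2.comp (nat_mul.comp hj hj)) (Primrec.const 1)
  exact (a3.and b2.all).ex.all

end Pool.Agent.Lib.MP_a8cc1b_lc
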