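import Pool.Agent.Lib.MP_a8cc1b_lc.Fibre

/-!
# The two null sets capture all images of null sets
-/

open Set MeasureTheory Filter Topology Metric ProbabilityTheory

open scoped ENNReal

namespace Pool.Agent.Lib.MP_a8cc1b_lc

variable {F : ℝ → ℝ}

theorem mA_le_one (y : ℝ) (S : Set ℝ) : mA F y S ≤ 1 := by
  rw [mA]
  calc (kap F y).restrict (NA F) S ≤ kap F y S := Measure.restrict_apply_le _ _
    _ ≤ kap F y univ := measure_mono (subset_univ _)
    _ = 1 := measure_univ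

theorem GoodPt.N1_le (hF : FData F) {y : ℝ} (hy : GoodPt F y) (j : ℕ) :
    kap F y {v | v ∈ Ico (0 : ℝ) 1 ∧ N1 F v} ≤
      ENNReal.ofReal ((2 ^ (j ^ 2) + 1) / 2 ^ (j ^ 2 + j)) := by
  haveI := hy.nullSingleton
  let slab : ℕ → Set ℝ := fun i => {v | ENNReal.ofReal ((i : ℝ) / 2 ^ (j ^ 2)) ≤ mA F y (Iio v) ∧
    mA F y (Iio v) ≤ ENNReal.ofReal (((i : ℝ) * 2 ^ j + 1) / 2 ^ (j ^ 2 + j))}
  have h1 : {v | v ∈ Ico (0 : ℝ) 1 ∧ N1 F v} ⊆ {v | ¬ (v ∈ Ico (0 : ℝ) 1 ∧ F v = y)} ∪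
      ((⋃ i ∈ Finset.range (2 ^ (j ^ 2) + 1), slab i) ∩ NA F) := by
    rintro v ⟨hv, hN⟩
    by_cases hFv : F v = y
    · right
      obtain ⟨h2, h3⟩ := (hy.N1_iff hv hFv).mp hN
      refine ⟨?_, hv, h2⟩
      obtain ⟨i, hi1, hi2⟩ := h3 j
      rw [mem_iUnion₂]
      refine ⟨i, ?_, hi1, hi2⟩
      rw [Finset.mem_range, Nat.lt_succ_iff]
      have h4 : ENNReal.ofReal ((i : ℝ) / 2 ^ (j ^ 2)) ≤ 1 := hi1.trans (mA_le_one _ _)
      rw [ENNReal.ofReal_le_one, div_le_one (by positivity)] at h4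
      exact_mod_cast h4
    · left
      intro h
      exact hFv h.2
  have h2 : ∀ i : ℕ, mA F y (slab i) ≤ ENNReal.ofReal (1 / 2 ^ (j ^ 2 + j)) := by
    intro i
    refine (measure_slab (mA F y) _ _).trans ?_
    rw [← ENNReal.ofReal_sub _ (by positivity)]
    apply ENNReal.ofReal_le_ofReal
    apply le_of_eq
    rw [pow_add]
    field_simp
    ring
  calc kap F y {v | v ∈ Ico (0 : ℝ) 1 ∧ N1 F v} ≤ _ := measure_mono h1
    _ ≤ _ := measure_union_le _ _
    _ = kap F y ((⋃ i ∈ Finset.range (2 ^ (j ^ 2) + 1), slab i) ∩ NA F) := by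
        rw [hy.conc, zero_add]
    _ = mA F y (⋃ i ∈ Finset.range (2 ^ (j ^ 2) + 1), slab i) := by
        rw [mA, Measure.restrict_apply' (measurableSet_NA hF)]
    _ ≤ ∑ i ∈ Finset.range (2 ^ (j ^ 2) + 1), mA F y (slab i) := measure_biUnion_finset_le _ _
    _ ≤ ∑ _i ∈ Finset.range (2 ^ (j ^ 2) + 1), ENNReal.ofReal (1 / 2 ^ (j ^ 2 + j)) :=
        Finset.sum_le_sum fun i _ => h2 i
    _ = ENNReal.ofReal ((2 ^ (j ^ 2) + 1) / 2 ^ (j ^ 2 + j)) := by
        rw [Finset.sum_const, Finset.card_range, nsmul_eq_mul, ← ENNReal.ofReal_natCast,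
          ← ENNReal.ofReal_mul (by positivity)]
        congr 1
        push_cast
        ring

theorem GoodPt.N1_null (hF : FData F) {y : ℝ} (hy : GoodPt F y) :
    kap F y {v | v ∈ Ico (0 : ℝ) 1 ∧ N1 F v} = 0 := by
  have h1 : Tendsto (fun j : ℕ => ENNReal.ofReal (2 * (1 / 2 : ℝ) ^ j)) atTop (𝓝 0) := by
    have h2 : Tendsto (fun j : ℕ => 2 * (1 / 2 : ℝ) ^ j) atTop (𝓝 (2 * 0)) :=
      (tendsto_pow_atTop_nhds_zero_of_lt_one (by norm_num) (by norm_num)).const_mul 2
    rw [mul_zero] at h2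
    have h3 := (ENNReal.continuous_ofReal.tendsto 0).comp h2
    rw [ENNReal.ofReal_zero] at h3
    exact h3
  refine le_antisymm (ge_of_tendsto' h1 fun j => (hy.N1_le hF j).trans ?_) zero_le
  apply ENNReal.ofReal_le_ofReal
  rw [div_le_iff₀ (by positivity), pow_add, one_div, inv_pow]
  have h4 : (1 : ℝ) ≤ 2 ^ (j ^ 2) := one_le_pow₀ (by norm_num)
  have h5 : (2 : ℝ) * (2 ^ j)⁻¹ * (2 ^ j ^ 2 * 2 ^ j) = 2 * 2 ^ j ^ 2 := by
    field_simp
  rw [h5]
  linarith

theorem lam_eq_lintegral (hF : Continuous F) {S : Set ℝ} (hS : MeasurableSet S) :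
    lam S = ∫⁻ y, kap F y S ∂(nu F) := by
  have h1 : lam S = rho F (univ ×ˢ S) := by
    rw [rho, Measure.map_apply (hF.measurable.prodMk measurable_id') (MeasurableSet.univ.prod hS)]
    congr 1
    ext v
    simp
  rw [h1, ← disint, Measure.compProd_apply_prod MeasurableSet.univ hS, Measure.restrict_univ]

theorem lam_N1 (hF : FData F) : lam {v | v ∈ Ico (0 : ℝ) 1 ∧ N1 F v} = 0 := by
  rw [lam_eq_lintegral hF.cont ((rd_N1 hF).measurableSet ()), lintegral_eq_zero_iff
    (Kernel.measurable_coe _ ((rd_N1 hF).measurableSet ()))]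
  filter_upwards [ae_good hF] with y hy
  exact hy.N1_null hF

/-- The set of points of the line where the image measure has lower density zero. -/
def D0 (F : ℝ → ℝ) (y : ℝ) : Prop :=
  ∀ j : ℕ, ∃ N : ℕ, ∀ n, N ≤ n → XE F univ y n ≤ qe (1, (j + 1) * (n + 1) - 1)

theorem N0_iff (v : ℝ) : N0 F v ↔ D0 F (F v) := Iff.rfl

theorem qe_inv (j n : ℕ) : qe (1, (j + 1) * (n + 1) - 1) =
    ENNReal.ofReal (1 / (((j : ℝ) + 1) * ((n : ℝ) + 1))) := by
  rw [qe]
  congr 1
  have h3 : (((j + 1) * (n + 1) - 1 : ℕ) : ℝ) + 1 = (j + 1) * (n + 1) := by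
    have : (j + 1) * (n + 1) - 1 + 1 = (j + 1) * (n + 1) :=
      Nat.sub_add_cancel (Nat.succ_le_of_lt (by positivity))
    exact_mod_cast this
  simp only
  rw [h3]
  push_cast
  rfl

theorem ae_not_D0 (hF : FData F) : ∀ᵐ y ∂(nu F), ¬ D0 F y := by
  filter_upwards [Besicovitch.ae_tendsto_rnDeriv volume (nu F),
    Measure.rnDeriv_lt_top volume (nu F)] with y h1 h2 hD
  have h3 := h1.comp tendsto_radius
  have h4 : ∀ j : ℕ, (j : ℝ≥0∞) ≤ (volume : Measure ℝ).rnDeriv (nu F) y := by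
    intro j
    obtain ⟨N, hN⟩ := hD j
    refine ge_of_tendsto h3 ?_
    filter_upwards [eventually_ge_atTop N] with n hn
    have h5 := hN n hn
    rw [XE_univ_eq hF.cont, qe_inv] at h5
    simp only [Function.comp_apply]
    rw [Real.volume_closedBall]
    rw [ENNReal.le_div_iff_mul_le]
    · calc (j : ℝ≥0∞) * nu F (closedBall y (1 / ((n : ℝ) + 1))) ≤
          ENNReal.ofReal (j : ℝ) * ENNReal.ofReal (1 / (((j : ℝ) + 1) * ((n : ℝ) + 1))) := by
            rw [ENNReal.ofReal_natCast]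
            exact mul_le_mul_right h5 _
        _ = ENNReal.ofReal ((j : ℝ) * (1 / (((j : ℝ) + 1) * ((n : ℝ) + 1)))) :=
            (ENNReal.ofReal_mul (by positivity)).symm
        _ ≤ ENNReal.ofReal (2 * (1 / ((n : ℝ) + 1))) := by
            apply ENNReal.ofReal_le_ofReal
            have hj : (0 : ℝ) < (j : ℝ) + 1 := by positivity
            have hn : (0 : ℝ) < (n : ℝ) + 1 := by positivity
            rw [mul_one_div, mul_one_div, div_le_div_iff₀ (by positivity) hn]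
            nlinarith [mul_pos hj hn]
    · right
      rw [Ne, ENNReal.ofReal_eq_zero, not_le]
      positivity
    · left
      exact measure_ne_top _ _
  have h5 : (volume : Measure ℝ).rnDeriv (nu F) y = ∞ := by
    by_contra hne
    obtain ⟨n, hn⟩ := ENNReal.exists_nat_gt hne
    exact absurd (h4 n) (not_le.mpr hn)
  rw [h5] at h2
  exact absurd h2 (lt_irrefl _)

theorem lam_N0 (hF : FData F) : lam {v | v ∈ Ico (0 : ℝ) 1 ∧ N0 F v} = 0 := by
  have h1 : ∀ᵐ v ∂lam, ¬ D0 F (F v) :=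
    ae_of_ae_map hF.cont.measurable.aemeasurable (ae_not_D0 hF)
  refine measure_mono_null ?_ h1
  rintro v ⟨-, hv⟩
  simp only [mem_compl_iff, Set.mem_ofPred_eq, not_not]
  exact hv

theorem GoodPt.exists_quantile_mem (hF : FData F) {y : ℝ} (hy : GoodPt F y) {t : ℝ≥0∞}
    (h0 : 0 < t) (h1 : t < mA F y univ) :
    ∃ z ∈ Ico (0 : ℝ) 1, F z = y ∧ mA F y (Iio z) = t := by
  haveI := hy.nullSingleton
  obtain ⟨z, hz, hlow⟩ := exists_quantile (mA F y) h0 h1
  have hle : ∀ S : Set ℝ, mA F y S ≤ kap F y S := fun S => Measure.restrict_apply_le _ _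
  have hz0 : 0 ≤ z := by
    by_contra hcon
    rw [not_le] at hcon
    have h2 : mA F y (Iio z) = 0 := by
      apply le_antisymm _ zero_le
      refine (hle _).trans (le_of_eq (measure_mono_null ?_ hy.compl))
      intro x hx hx'
      exact absurd (lt_of_lt_of_le (lt_trans hx hcon) hx'.1) (lt_irrefl _)
    rw [h2] at hz
    exact h0.ne hz
  have hI1 : mA F y (Iio 1) = mA F y univ := by
    apply le_antisymm (measure_mono (subset_univ _))
    have h2 : mA F y (Ici 1) = 0 := by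
      apply le_antisymm _ zero_le
      refine (hle _).trans (le_of_eq (measure_mono_null ?_ hy.compl))
      intro x hx hx'
      exact absurd (lt_of_le_of_lt hx hx'.2) (lt_irrefl _)
    calc mA F y univ = mA F y (Iio 1 ∪ Ici 1) := by rw [Iio_union_Ici]
      _ ≤ mA F y (Iio 1) + mA F y (Ici 1) := measure_union_le _ _
      _ = mA F y (Iio 1) := by rw [h2, add_zero]
  have hz1 : z < 1 := by
    rcases lt_trichotomy z 1 with h | h | h
    · exact h
    · rw [h, hI1] at hz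
      exact absurd hz h1.ne'
    · have := hlow 1 h
      rw [hI1] at this
      exact absurd (this.trans h1) (lt_irrefl _)
  refine ⟨z, ⟨hz0, hz1⟩, ?_, hz⟩
  have hcl : IsClosed {v | F v = y} := isClosed_eq hF.cont continuous_const
  have hmem : z ∈ closure {v | F v = y} := by
    rw [Metric.mem_closure_iff]
    intro ε hε
    have h2 : mA F y (Ico (z - ε / 2) z) ≠ 0 := by
      intro h3
      have h4 : mA F y (Iio z) ≤ mA F y (Iio (z - ε / 2)) := by
        calc mA F y (Iio z) ≤ mA F y (Iio (z - ε / 2) ∪ Ico (z - ε / 2) z) := by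
              apply measure_mono
              intro x hx
              rcases lt_or_ge x (z - ε / 2) with h | h
              · exact Or.inl h
              · exact Or.inr ⟨h, hx⟩
          _ ≤ _ := measure_union_le _ _
          _ = _ := by rw [h3, add_zero]
      rw [hz] at h4
      exact absurd (lt_of_le_of_lt h4 (hlow (z - ε / 2) (by linarith))) (lt_irrefl _)
    by_contra hcon
    push Not at hcon
    apply h2
    apply le_antisymm _ zero_le
    refine (hle _).trans (le_of_eq (hy.conc_iff ?_))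
    rintro v hv ⟨-, hFv⟩
    have h5 := hcon v hFv
    rw [Real.dist_eq, le_abs] at h5
    rcases h5 with h5 | h5
    · linarith [hv.1]
    · linarith [hv.2]
  exact hcl.closure_subset hmem

theorem GoodPt.exists_N1 (hF : FData F) {y : ℝ} (hy : GoodPt F y) {v : ℝ}
    (hv : v ∈ Ico (0 : ℝ) 1) (hFv : F v = y) (hna : NonAtom F v) :
    ∃ v1 ∈ Ico (0 : ℝ) 1, F v1 = y ∧ N1 F v1 := by
  by_cases h0 : mA F y univ = 0
  · refine ⟨v, hv, hFv, (hy.N1_iff hv hFv).mpr ⟨hna, ?_⟩⟩
    rw [measure_mono_null (subset_univ _) h0]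
    exact sparse_zero
  · by_contra hcon
    push Not at hcon
    refine not_countable_sparse (pos_iff_ne_zero.mpr h0) ?_
    refine ((countable_atoms (kap F y)).image fun z => mA F y (Iio z)).mono ?_
    rintro u ⟨hu1, hu2, hu3⟩
    obtain ⟨z, hz1, hz2, hz3⟩ := hy.exists_quantile_mem hF hu2 hu3
    refine ⟨z, ?_, hz3⟩
    intro hz4
    apply hcon z hz1 hz2
    rw [hy.N1_iff hz1 hz2]
    refine ⟨(hy.nonAtom_iff hz1 hz2).mpr hz4, ?_⟩
    rw [hz3]
    exact hu1

/-- The images of null sets are covered, up to null sets, by the images of the two null sets. -/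
theorem image_null (hF : FData F) {K : Set ℝ} (hK : volume K = 0) :
    volume (F '' (K ∩ Ico (0 : ℝ) 1) \ (F '' {v | v ∈ Ico (0 : ℝ) 1 ∧ N0 F v} ∪
      F '' {v | v ∈ Ico (0 : ℝ) 1 ∧ N1 F v})) = 0 := by
  set K' := toMeasurable volume K with hK'
  have hK'm : MeasurableSet K' := measurableSet_toMeasurable _ _
  have hK'0 : volume K' = 0 := by rw [hK', measure_toMeasurable, hK]
  have hlam : lam K' = 0 := by
    rw [lam]
    exact le_antisymm ((Measure.restrict_apply_le _ _).trans hK'0.le) zero_le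
  have h1 : ∀ᵐ y ∂(nu F), kap F y K' = 0 := by
    rw [lam_eq_lintegral hF.cont hK'm, lintegral_eq_zero_iff (Kernel.measurable_coe _ hK'm)]
      at hlam
    exact hlam
  have hZ : ∀ᵐ y ∂(nu F), GoodPt F y ∧ kap F y K' = 0 := by
    filter_upwards [ae_good hF, h1] with y a b
    exact ⟨a, b⟩
  set Z := {y | GoodPt F y ∧ kap F y K' = 0}ᶜ with hZdef
  have hZ0 : nu F Z = 0 := hZ
  set Z' := toMeasurable (nu F) Z with hZ'
  have hZ'm : MeasurableSet Z' := measurableSet_toMeasurable _ _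
  have hZ'0 : nu F Z' = 0 := by rw [hZ', measure_toMeasurable, hZ0]
  have hZs : Z ⊆ Z' := subset_toMeasurable _ _
  have h2 : ∀ᵐ y ∂(volume : Measure ℝ), y ∈ Z' → (nu F).rnDeriv volume y = 0 := by
    have h3 : ∫⁻ y in Z', (nu F).rnDeriv volume y = 0 :=
      le_antisymm ((Measure.setLIntegral_rnDeriv_le _).trans hZ'0.le) zero_le
    rw [lintegral_eq_zero_iff (Measure.measurable_rnDeriv _ _)] at h3
    exact (ae_restrict_iff' hZ'm).mp h3
  have h3 : ∀ᵐ y ∂(volume : Measure ℝ), y ∈ Z' → D0 F y := by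
    filter_upwards [h2, Besicovitch.ae_tendsto_rnDeriv (nu F) volume] with y h4 h5 hyZ j
    rw [h4 hyZ] at h5
    have h6 := h5.comp tendsto_radius
    have h7 : (0 : ℝ≥0∞) < ENNReal.ofReal (1 / (2 * ((j : ℝ) + 1))) := by
      rw [ENNReal.ofReal_pos]
      positivity
    obtain ⟨N, hN⟩ := eventually_atTop.mp (h6.eventually (gt_mem_nhds h7))
    refine ⟨N, fun n hn => ?_⟩
    have h8 := hN n hn
    simp only [Function.comp_apply] at h8
    have hn0 : (0 : ℝ) < 1 / ((n : ℝ) + 1) := by positivity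
    rw [Real.volume_closedBall] at h8
    have h9 := (ENNReal.div_le_iff (by
      rw [Ne, ENNReal.ofReal_eq_zero, not_le]
      positivity) ENNReal.ofReal_ne_top).mp h8.le
    rw [XE_univ_eq hF.cont, qe_inv]
    refine h9.trans (le_of_eq ?_)
    rw [← ENNReal.ofReal_mul (by positivity)]
    congr 1
    field_simp
  refine measure_mono_null ?_ h3
  rintro y ⟨⟨v, ⟨hvK, hvI⟩, rfl⟩, hy2⟩
  rw [mem_union, not_or] at hy2
  have hnD : ¬ D0 F (F v) := fun hD => hy2.1 ⟨v, ⟨hvI, hD⟩, rfl⟩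
  intro hcon
  apply hnD
  apply hcon
  apply hZs
  intro hgood
  obtain ⟨hg1, hg2⟩ := hgood
  have hat : kap F (F v) {v} = 0 := by
    refine measure_mono_null ?_ hg2
    rintro _ rfl
    exact subset_toMeasurable _ _ hvK
  obtain ⟨v1, hv1, hv2, hv3⟩ := hg1.exists_N1 hF hvI rfl ((hg1.nonAtom_iff hvI rfl).mpr hat)
  exact hy2.2 ⟨v1, ⟨hv1, hv3⟩, hv2⟩

end Pool.Agent.Lib.MP_a8cc1b_lc
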