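import Pool.Agent.Lib.MP_a8cc1b_lc.MeasQ

/-!
# Hyperarithmetic relations on the unit interval
-/

open Primrec Set MeasureTheory

open scoped ENNReal

namespace Pool.Agent.Lib.MP_a8cc1b_lc

variable {α : Type} [Primcodable α] {β : Type} [Primcodable β]

/-- The relation `D` on `[0,1) × α` is lightface `Δ¹₁`. -/
def RD (D : ℝ → α → Prop) : Prop :=
  ∃ E : (ℕ → ℕ) → α → Prop, D11 E ∧ ∀ v ∈ Ico (0 : ℝ) 1, ∀ a, D v a ↔ E (dig v) a

theorem RD.of_iff {D D' : ℝ → α → Prop} (h : RD D)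
    (hE : ∀ v ∈ Ico (0 : ℝ) 1, ∀ a, D' v a ↔ D v a) : RD D' := by
  obtain ⟨E, hE1, hE2⟩ := h
  exact ⟨E, hE1, fun v hv a => (hE v hv a).trans (hE2 v hv a)⟩

theorem RD.not {D : ℝ → α → Prop} (h : RD D) : RD (fun v a => ¬ D v a) := by
  obtain ⟨E, hE1, hE2⟩ := h
  exact ⟨_, hE1.not, fun v hv a => not_congr (hE2 v hv a)⟩

theorem RD.and {D D' : ℝ → α → Prop} (h : RD D) (h' : RD D') :
    RD (fun v a => D v a ∧ D' v a) := by
  obtain ⟨E, hE1, hE2⟩ := h
  obtain ⟨E', hE1', hE2'⟩ := h'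
  exact ⟨_, hE1.and hE1', fun v hv a => and_congr (hE2 v hv a) (hE2' v hv a)⟩

theorem RD.or {D D' : ℝ → α → Prop} (h : RD D) (h' : RD D') :
    RD (fun v a => D v a ∨ D' v a) := by
  obtain ⟨E, hE1, hE2⟩ := h
  obtain ⟨E', hE1', hE2'⟩ := h'
  exact ⟨_, hE1.or hE1', fun v hv a => or_congr (hE2 v hv a) (hE2' v hv a)⟩

theorem RD.imp {D D' : ℝ → α → Prop} (h : RD D) (h' : RD D') :
    RD (fun v a => D v a → D' v a) := by
  obtain ⟨E, hE1, hE2⟩ := h
  obtain ⟨E', hE1', hE2'⟩ := h'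
  exact ⟨_, hE1.imp hE1', fun v hv a => imp_congr (hE2 v hv a) (hE2' v hv a)⟩

theorem RD.ex {D : ℝ → α × β → Prop} (h : RD D) : RD (fun v a => ∃ b, D v (a, b)) := by
  obtain ⟨E, hE1, hE2⟩ := h
  exact ⟨_, hE1.ex, fun v hv a => exists_congr fun b => hE2 v hv (a, b)⟩

theorem RD.all {D : ℝ → α × β → Prop} (h : RD D) : RD (fun v a => ∀ b, D v (a, b)) := by
  obtain ⟨E, hE1, hE2⟩ := h
  exact ⟨_, hE1.all, fun v hv a => forall_congr' fun b => hE2 v hv (a, b)⟩

theorem RD.of_primrec {p : α → Prop} (hp : PrimrecPred p) : RD (fun _ a => p a) :=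
  ⟨_, D11.of_primrec hp, fun _ _ _ => Iff.rfl⟩

/-- A lightface `Δ¹₁` set of natural numbers (or of elements of a coded type). -/
def ND (p : α → Prop) : Prop := D11 (fun (_ : ℕ → ℕ) a => p a)

theorem RD.of_nd {p : α → Prop} (hp : ND p) : RD (fun _ a => p a) :=
  ⟨_, hp, fun _ _ _ => Iff.rfl⟩

theorem RD.eval {p : α × ℕ → Prop} (hp : PrimrecPred p) {g : α → ℕ} (hg : Primrec g) :
    RD (fun v a => p (a, dig v (g a))) :=
  ⟨_, D11.eval hp hg, fun _ _ _ => Iff.rfl⟩

/-- Substitution of a digit of the real variable. -/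
theorem RD.subst {D : ℝ → α × ℕ → Prop} (hD : RD D) {g : α → ℕ} (hg : Primrec g) :
    RD (fun v a => D v (a, dig v (g a))) := by
  have h1 : RD (fun v (a : α × ℕ) => a.2 = dig v (g a.1)) := by
    have := RD.eval (α := α × ℕ) (p := fun q => q.1.2 = q.2)
      (Primrec.eq.comp (snd.comp fst) snd) (g := fun a => g a.1) (hg.comp fst)
    exact this
  refine (h1.and hD).ex.of_iff ?_
  intro v _ a
  constructor
  · intro h
    exact ⟨_, rfl, h⟩
  · rintro ⟨b, hb, h⟩
    have hb' : b = dig v (g a) := hb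
    rw [← hb']
    exact h

theorem RD.comp {D : ℝ → β → Prop} (h : RD D) {g : α → β} (hg : Primrec g) :
    RD (fun v a => D v (g a)) := by
  obtain ⟨E, hE1, hE2⟩ := h
  exact ⟨_, hE1.comp hg, fun v hv a => hE2 v hv (g a)⟩

theorem ND.comp' {p : β → Prop} (h : ND p) {g : α → β} (hg : Computable g) :
    ND (fun a => p (g a)) := D11.comp' h hg

theorem ND.comp {p : β → Prop} (h : ND p) {g : α → β} (hg : Primrec g) :
    ND (fun a => p (g a)) := D11.comp h hg

/-! ### Measurability -/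

theorem measurableSet_pre (Q : List ℕ → Prop) (l : ℕ) : MeasurableSet {w : ℕ → ℕ | Q (pre w l)} :=
  (isClosed_pre Q l).measurableSet

theorem measurable_dig : Measurable dig := by
  rw [measurable_pi_iff]
  intro n
  exact Nat.measurable_floor.comp (measurable_id.mul_const _)

theorem S11.analyticSet {D : (ℕ → ℕ) → α → Prop} (hD : S11 D) (a : α) :
    AnalyticSet {v : ℝ | v ∈ Ico (0 : ℝ) 1 ∧ D (dig v) a} := by
  obtain ⟨P, -, hD⟩ := hD
  have h1 : {v : ℝ | v ∈ Ico (0 : ℝ) 1 ∧ D (dig v) a} =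
      Prod.fst '' {p : ℝ × (ℕ → ℕ) | p.1 ∈ Ico (0 : ℝ) 1 ∧
        ∀ n, P (a, pre (dig p.1) n, pre p.2 n)} := by
    ext v
    simp only [Set.mem_ofPred_eq, mem_image, Prod.exists, exists_and_right, exists_eq_right]
    rw [hD]
    constructor
    · rintro ⟨h1, w, hw⟩
      exact ⟨w, h1, hw⟩
    · rintro ⟨w, h1, hw⟩
      exact ⟨h1, w, hw⟩
  rw [h1]
  apply AnalyticSet.image_of_continuous _ continuous_fst
  apply MeasurableSet.analyticSet
  have h2 : {p : ℝ × (ℕ → ℕ) | p.1 ∈ Ico (0 : ℝ) 1 ∧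
        ∀ n, P (a, pre (dig p.1) n, pre p.2 n)} = (Prod.fst ⁻¹' Ico (0 : ℝ) 1) ∩
        ⋂ n, ⋃ s : List ℕ × List ℕ, ⋃ (_ : P (a, s.1, s.2)),
          ((fun p : ℝ × (ℕ → ℕ) => dig p.1) ⁻¹' {x | pre x n = s.1}) ∩
          (Prod.snd ⁻¹' {w | pre w n = s.2}) := by
    ext p
    simp only [Set.mem_ofPred_eq, mem_inter_iff, mem_preimage, mem_iInter, mem_iUnion,
      exists_prop, Prod.exists]
    apply and_congr_right
    intro _
    apply forall_congr'
    intro n
    constructor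
    · intro h
      exact ⟨_, _, h, rfl, rfl⟩
    · rintro ⟨s, t, h, rfl, rfl⟩
      exact h
  rw [h2]
  apply MeasurableSet.inter
  · exact measurable_fst measurableSet_Ico
  · apply MeasurableSet.iInter
    intro n
    apply MeasurableSet.iUnion
    intro s
    apply MeasurableSet.iUnion
    intro _
    apply MeasurableSet.inter
    · exact (measurable_dig.comp measurable_fst) (measurableSet_pre (fun l => l = s.1) n)
    · exact measurable_snd (measurableSet_pre (fun l => l = s.2) n)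

theorem RD.measurableSet {D : ℝ → α → Prop} (hD : RD D) (a : α) :
    MeasurableSet {v : ℝ | v ∈ Ico (0 : ℝ) 1 ∧ D v a} := by
  obtain ⟨E, hE, hE2⟩ := hD
  have h1 : {v : ℝ | v ∈ Ico (0 : ℝ) 1 ∧ D v a} = {v : ℝ | v ∈ Ico (0 : ℝ) 1 ∧ E (dig v) a} := by
    ext v
    simp only [Set.mem_ofPred_eq]
    apply and_congr_right
    intro hv
    exact hE2 v hv a
  rw [h1]
  have h2 := hE.1.analyticSet a
  have h3 := hE.2.analyticSet a
  apply h2.measurableSet_of_compl
  have h4 : {v : ℝ | v ∈ Ico (0 : ℝ) 1 ∧ E (dig v) a}ᶜ =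
      (Ico (0 : ℝ) 1)ᶜ ∪ {v : ℝ | v ∈ Ico (0 : ℝ) 1 ∧ ¬ E (dig v) a} := by
    ext v
    simp only [mem_compl_iff, Set.mem_ofPred_eq, mem_union]
    tauto
  rw [h4, Set.union_eq_iUnion]
  apply AnalyticSet.iUnion
  intro b
  cases b
  · exact h3
  · exact measurableSet_Ico.compl.analyticSet

/-- The measure of a `Δ¹₁` set is uniformly `Δ¹₁`. -/
theorem RD.measure {D : ℝ → α → Prop} (hD : RD D) :
    ND (fun (p : α × (ℕ × ℕ)) => qe p.2 < lam {v | D v p.1}) := by
  have hmeas := fun a => hD.measurableSet a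
  obtain ⟨E, hE, hE2⟩ := hD
  have h1 : ∀ a, lam {v | D v a} = lam {v | E (dig v) a} := by
    intro a
    apply lam_congr
    intro v hv
    exact hE2 v hv a
  have h2 : ∀ a, lam {v | D v a} = 1 - lam {v | ¬ E (dig v) a} := by
    intro a
    have h3 : lam {v | ¬ E (dig v) a} = lam ({v : ℝ | v ∈ Ico (0 : ℝ) 1 ∧ D v a}ᶜ) := by
      apply lam_congr
      intro v hv
      simp only [Set.mem_ofPred_eq, mem_compl_iff, hv, true_and]
      rw [hE2 v hv a]
    have h4 : lam {v | D v a} = lam ({v : ℝ | v ∈ Ico (0 : ℝ) 1 ∧ D v a}) := by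
      apply lam_congr
      intro v hv
      simp only [Set.mem_ofPred_eq, hv, true_and]
    rw [h3, prob_compl_eq_one_sub (hmeas a), h4,
      ENNReal.sub_sub_cancel ENNReal.one_ne_top prob_le_one]
  constructor
  · refine hE.1.measure.of_iff ?_
    intro _ p
    have := h1 p.1
    simp only [this]
  · have h3 : S11 (fun (_ : ℕ → ℕ) (p : (α × (ℕ × ℕ)) × (ℕ × ℕ)) =>
        ¬ (p.2.1 * (p.1.2.2 + 1) + p.1.2.1 * (p.2.2 + 1) < (p.2.2 + 1) * (p.1.2.2 + 1)) ∨
        qe p.2 < lam {v | ¬ E (dig v) p.1.1}) := by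
      apply S11.or
      · apply S11.of_primrec
        apply PrimrecPred.not
        refine nat_lt.comp (nat_add.comp
          (nat_mul.comp (fst.comp snd) (Primrec.succ.comp (snd.comp (snd.comp fst))))
          (nat_mul.comp (fst.comp (snd.comp fst)) (Primrec.succ.comp (snd.comp snd))))
          (nat_mul.comp (Primrec.succ.comp (snd.comp snd))
            (Primrec.succ.comp (snd.comp (snd.comp fst))))
      · exact hE.2.measure.comp (g := fun p : (α × (ℕ × ℕ)) × (ℕ × ℕ) => (p.1.1, p.2))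
          ((fst.comp fst).pair snd)
    refine h3.allB.of_iff ?_
    rintro - ⟨a, t⟩
    simp only
    have harith : ∀ s : ℕ × ℕ, (s.1 * (t.2 + 1) + t.1 * (s.2 + 1) < (s.2 + 1) * (t.2 + 1)) ↔
        qe s + qe t < 1 := by
      intro s
      rw [qe, qe, ← ENNReal.ofReal_add (by positivity) (by positivity), ← ENNReal.ofReal_one,
        ENNReal.ofReal_lt_ofReal_iff one_pos]
      have h1 : (0 : ℝ) < (s.2 : ℝ) + 1 := by positivity
      have h2 : (0 : ℝ) < (t.2 : ℝ) + 1 := by positivity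
      rw [div_add_div _ _ h1.ne' h2.ne', div_lt_one (by positivity)]
      constructor
      · intro h
        have : ((s.1 * (t.2 + 1) + t.1 * (s.2 + 1) : ℕ) : ℝ) < (((s.2 + 1) * (t.2 + 1) : ℕ) : ℝ) :=
          by exact_mod_cast h
        push_cast at this
        linarith
      · intro h
        have : ((s.1 * (t.2 + 1) + t.1 * (s.2 + 1) : ℕ) : ℝ) < (((s.2 + 1) * (t.2 + 1) : ℕ) : ℝ) :=
          by push_cast; linarith
        exact_mod_cast this
    constructor
    · intro h s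
      rw [harith]
      by_cases h5 : qe s + qe t < 1
      · right
        rw [not_lt, h2 a] at h
        have h6 : 1 - qe t ≤ lam {v | ¬ E (dig v) a} := by
          rw [tsub_le_iff_right] at h ⊢
          rw [add_comm]
          exact h
        refine lt_of_lt_of_le ?_ h6
        exact lt_tsub_iff_right.mpr h5
      · exact Or.inl h5
    · intro h hcon
      rw [h2 a] at hcon
      have h6 : lam {v | ¬ E (dig v) a} < 1 - qe t := by
        have h7 : qe t + lam {v | ¬ E (dig v) a} < 1 := lt_tsub_iff_right.mp hcon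
        rw [add_comm] at h7
        exact lt_tsub_iff_right.mpr h7
      obtain ⟨s, hs1, hs2⟩ := exists_qe_btwn h6
      rcases h s with h8 | h8
      · rw [harith] at h8
        exact h8 (lt_tsub_iff_right.mp hs2)
      · exact absurd (hs1.trans h8) (lt_irrefl _)

end Pool.Agent.Lib.MP_a8cc1b_lc
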