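import Pool.Agent.Lib.MP_a8cc1b_lc.RD

/-!
# Hyperarithmetic functions with values in the extended nonnegative reals
-/

open Primrec Set MeasureTheory

open scoped ENNReal

namespace Pool.Agent.Lib.MP_a8cc1b_lc

variable {α : Type} [Primcodable α] {β : Type} [Primcodable β]

/-! ### Rational numbers coded by triples -/

/-- The rational number `(a - b) / (c + 1)` coded by the triple `(a, b, c)`. -/
noncomputable def rat (q : ℕ × ℕ × ℕ) : ℝ := ((q.1 : ℝ) - q.2.1) / (q.2.2 + 1)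

theorem rat_lt_iff (p q : ℕ × ℕ × ℕ) : rat p < rat q ↔
    p.1 * (q.2.2 + 1) + q.2.1 * (p.2.2 + 1) < q.1 * (p.2.2 + 1) + p.2.1 * (q.2.2 + 1) := by
  have h1 : (0 : ℝ) < (p.2.2 : ℝ) + 1 := by positivity
  have h2 : (0 : ℝ) < (q.2.2 : ℝ) + 1 := by positivity
  rw [rat, rat, div_lt_div_iff₀ h1 h2]
  rw [← Nat.cast_lt (α := ℝ)]
  push_cast
  constructor <;> intro h <;> nlinarith

theorem primrec_rat_lt : PrimrecPred fun p : (ℕ × ℕ × ℕ) × (ℕ × ℕ × ℕ) => rat p.1 < rat p.2 := by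
  refine PrimrecPred.of_eq ?_ (fun p => (rat_lt_iff p.1 p.2).symm)
  have a1 : Primrec fun p : (ℕ × ℕ × ℕ) × (ℕ × ℕ × ℕ) => p.1.1 := fst.comp fst
  have a2 : Primrec fun p : (ℕ × ℕ × ℕ) × (ℕ × ℕ × ℕ) => p.1.2.1 := fst.comp (snd.comp fst)
  have a3 : Primrec fun p : (ℕ × ℕ × ℕ) × (ℕ × ℕ × ℕ) => p.1.2.2 + 1 :=
    Primrec.succ.comp (snd.comp (snd.comp fst))
  have b1 : Primrec fun p : (ℕ × ℕ × ℕ) × (ℕ × ℕ × ℕ) => p.2.1 := fst.comp snd
  have b2 : Primrec fun p : (ℕ × ℕ × ℕ) × (ℕ × ℕ × ℕ) => p.2.2.1 := fst.comp (snd.comp snd)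
  have b3 : Primrec fun p : (ℕ × ℕ × ℕ) × (ℕ × ℕ × ℕ) => p.2.2.2 + 1 :=
    Primrec.succ.comp (snd.comp (snd.comp snd))
  exact nat_lt.comp (nat_add.comp (nat_mul.comp a1 b3) (nat_mul.comp b2 a3))
    (nat_add.comp (nat_mul.comp b1 a3) (nat_mul.comp a2 b3))

/-- The code of `rat q + 1 / (n + 1)`. -/
def addInv (q : ℕ × ℕ × ℕ) (n : ℕ) : ℕ × ℕ × ℕ :=
  (q.1 * (n + 1) + (q.2.2 + 1), q.2.1 * (n + 1), (q.2.2 + 1) * (n + 1) - 1)

theorem rat_addInv (q : ℕ × ℕ × ℕ) (n : ℕ) : rat (addInv q n) = rat q + 1 / ((n : ℝ) + 1) := by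
  have h1 : (0 : ℝ) < (q.2.2 : ℝ) + 1 := by positivity
  have h2 : (0 : ℝ) < (n : ℝ) + 1 := by positivity
  have h3 : (((q.2.2 + 1) * (n + 1) - 1 : ℕ) : ℝ) + 1 = (q.2.2 + 1) * (n + 1) := by
    have : (q.2.2 + 1) * (n + 1) - 1 + 1 = (q.2.2 + 1) * (n + 1) :=
      Nat.sub_add_cancel (Nat.succ_le_of_lt (by positivity))
    exact_mod_cast this
  simp only [rat, addInv]
  rw [h3]
  push_cast
  field_simp
  ring

/-- The code of `rat q - 1 / (n + 1)`. -/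
def subInv (q : ℕ × ℕ × ℕ) (n : ℕ) : ℕ × ℕ × ℕ :=
  (q.1 * (n + 1), q.2.1 * (n + 1) + (q.2.2 + 1), (q.2.2 + 1) * (n + 1) - 1)

theorem rat_subInv (q : ℕ × ℕ × ℕ) (n : ℕ) : rat (subInv q n) = rat q - 1 / ((n : ℝ) + 1) := by
  have h1 : (0 : ℝ) < (q.2.2 : ℝ) + 1 := by positivity
  have h2 : (0 : ℝ) < (n : ℝ) + 1 := by positivity
  have h3 : (((q.2.2 + 1) * (n + 1) - 1 : ℕ) : ℝ) + 1 = (q.2.2 + 1) * (n + 1) := by
    have : (q.2.2 + 1) * (n + 1) - 1 + 1 = (q.2.2 + 1) * (n + 1) :=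
      Nat.sub_add_cancel (Nat.succ_le_of_lt (by positivity))
    exact_mod_cast this
  simp only [rat, subInv]
  rw [h3]
  push_cast
  field_simp
  ring

theorem primrec_subInv : Primrec₂ subInv := by
  have a1 : Primrec fun p : (ℕ × ℕ × ℕ) × ℕ => p.1.1 := fst.comp fst
  have a2 : Primrec fun p : (ℕ × ℕ × ℕ) × ℕ => p.1.2.1 := fst.comp (snd.comp fst)
  have a3 : Primrec fun p : (ℕ × ℕ × ℕ) × ℕ => p.1.2.2 + 1 :=
    Primrec.succ.comp (snd.comp (snd.comp fst))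
  have b : Primrec fun p : (ℕ × ℕ × ℕ) × ℕ => p.2 + 1 := Primrec.succ.comp snd
  exact ((nat_mul.comp a1 b).pair ((nat_add.comp (nat_mul.comp a2 b) a3).pair
    (nat_sub.comp (nat_mul.comp a3 b) (Primrec.const 1)))).to₂

theorem primrec_addInv : Primrec₂ addInv := by
  have a1 : Primrec fun p : (ℕ × ℕ × ℕ) × ℕ => p.1.1 := fst.comp fst
  have a2 : Primrec fun p : (ℕ × ℕ × ℕ) × ℕ => p.1.2.1 := fst.comp (snd.comp fst)
  have a3 : Primrec fun p : (ℕ × ℕ × ℕ) × ℕ => p.1.2.2 + 1 :=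
    Primrec.succ.comp (snd.comp (snd.comp fst))
  have b : Primrec fun p : (ℕ × ℕ × ℕ) × ℕ => p.2 + 1 := Primrec.succ.comp snd
  exact ((nat_add.comp (nat_mul.comp a1 b) a3).pair ((nat_mul.comp a2 b).pair
    (nat_sub.comp (nat_mul.comp a3 b) (Primrec.const 1)))).to₂

theorem exists_rat_btwn' {x y : ℝ} (h : x < y) : ∃ q : ℕ × ℕ × ℕ, x < rat q ∧ rat q < y := by
  obtain ⟨q, h1, h2⟩ := exists_rat_btwn h
  have hq : rat (q.num.toNat, (-q.num).toNat, q.den - 1) = (q : ℝ) := by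
    have hd : (((q.den - 1 : ℕ) : ℝ) + 1) = (q.den : ℝ) := by
      have : q.den - 1 + 1 = q.den := Nat.sub_add_cancel q.den_pos
      exact_mod_cast this
    have hn : ((q.num.toNat : ℕ) : ℝ) - (((-q.num).toNat : ℕ) : ℝ) = (q.num : ℝ) := by
      have h3 : ((q.num.toNat : ℕ) : ℤ) - (((-q.num).toNat : ℕ) : ℤ) = q.num := by omega
      exact_mod_cast h3
    simp only [rat]
    rw [hd, hn]
    exact (Rat.cast_def q).symm
  exact ⟨_, by rw [hq]; exact h1, by rw [hq]; exact h2⟩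

/-! ### Functions -/

/-- The function `φ : [0,1) × α → [0,∞]` is lightface `Δ¹₁`. -/
def RF (φ : ℝ → α → ℝ≥0∞) : Prop :=
  RD (fun v (p : α × (ℕ × ℕ)) => qe p.2 < φ v p.1)

theorem RF.le {φ ψ : ℝ → α → ℝ≥0∞} (hφ : RF φ) (hψ : RF ψ) :
    RD (fun v a => φ v a ≤ ψ v a) := by
  refine (RD.all (β := ℕ × ℕ) (RD.imp hφ hψ)).of_iff ?_
  intro v _ a
  constructor
  · intro h t ht
    exact lt_of_lt_of_le ht h
  · intro h
    by_contra hcon
    rw [not_le] at hcon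
    obtain ⟨t, ht1, ht2⟩ := exists_qe_btwn hcon
    exact absurd ((h t ht2).trans ht1) (lt_irrefl _)

theorem RF.comp {φ : ℝ → β → ℝ≥0∞} (hφ : RF φ) {g : α → β} (hg : Primrec g) :
    RF (fun v a => φ v (g a)) :=
  RD.comp (g := fun p : α × (ℕ × ℕ) => (g p.1, p.2)) hφ ((hg.comp fst).pair snd)

theorem RF.subst {φ : ℝ → α × ℕ → ℝ≥0∞} (hφ : RF φ) {g : α → ℕ} (hg : Primrec g) :
    RF (fun v a => φ v (a, dig v (g a))) := by
  have h1 : RD (fun v (p : (α × (ℕ × ℕ)) × ℕ) => qe p.1.2 < φ v (p.1.1, p.2)) := by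
    have := RD.comp (g := fun p : (α × (ℕ × ℕ)) × ℕ => ((p.1.1, p.2), p.1.2)) hφ
      (((fst.comp fst).pair snd).pair (snd.comp fst))
    exact this
  have h2 := RD.subst h1 (g := fun p : α × (ℕ × ℕ) => g p.1) (hg.comp fst)
  exact h2

theorem primrec_qe_lt : PrimrecPred fun p : (ℕ × ℕ) × (ℕ × ℕ) => qe p.1 < qe p.2 := by
  refine PrimrecPred.of_eq ?_ (fun p => (qe_lt_iff p.1 p.2).symm)
  exact nat_lt.comp (nat_mul.comp (fst.comp fst) (Primrec.succ.comp (snd.comp snd)))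
    (nat_mul.comp (fst.comp snd) (Primrec.succ.comp (snd.comp fst)))

theorem RF.const {g : α → ℕ × ℕ} (hg : Primrec g) : RF (fun _ a => qe (g a)) :=
  RD.of_primrec (primrec_qe_lt.comp (snd.pair (hg.comp fst)))

/-- Product of two codes. -/
def qmul (s t : ℕ × ℕ) : ℕ × ℕ := (s.1 * t.1, (s.2 + 1) * (t.2 + 1) - 1)

theorem qe_qmul (s t : ℕ × ℕ) : qe (qmul s t) = qe s * qe t := by
  have h1 : (0 : ℝ) < (s.2 : ℝ) + 1 := by positivity
  have h2 : (0 : ℝ) < (t.2 : ℝ) + 1 := by positivity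
  have h3 : (((s.2 + 1) * (t.2 + 1) - 1 : ℕ) : ℝ) + 1 = (s.2 + 1) * (t.2 + 1) := by
    have : (s.2 + 1) * (t.2 + 1) - 1 + 1 = (s.2 + 1) * (t.2 + 1) :=
      Nat.sub_add_cancel (Nat.succ_le_of_lt (by positivity))
    exact_mod_cast this
  simp only [qe, qmul]
  rw [h3, ← ENNReal.ofReal_mul (by positivity)]
  congr 1
  push_cast
  field_simp

theorem primrec_qmul : Primrec₂ qmul := by
  have a1 : Primrec fun p : (ℕ × ℕ) × (ℕ × ℕ) => p.1.1 := fst.comp fst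
  have a2 : Primrec fun p : (ℕ × ℕ) × (ℕ × ℕ) => p.1.2 + 1 := Primrec.succ.comp (snd.comp fst)
  have b1 : Primrec fun p : (ℕ × ℕ) × (ℕ × ℕ) => p.2.1 := fst.comp snd
  have b2 : Primrec fun p : (ℕ × ℕ) × (ℕ × ℕ) => p.2.2 + 1 := Primrec.succ.comp (snd.comp snd)
  exact ((nat_mul.comp a1 b1).pair (nat_sub.comp (nat_mul.comp a2 b2) (Primrec.const 1))).to₂

theorem RF.mul_const {φ : ℝ → α → ℝ≥0∞} (hφ : RF φ) {g : α → ℕ × ℕ} (hg : Primrec g) :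
    RF (fun v a => qe (g a) * φ v a) := by
  have h1 : RD (fun v (p : (α × (ℕ × ℕ)) × (ℕ × ℕ)) =>
      qe p.1.2 < qe (qmul (g p.1.1) p.2) ∧ qe p.2 < φ v p.1.1) := by
    apply RD.and
    · exact RD.of_primrec (primrec_qe_lt.comp ((snd.comp fst).pair
        (primrec_qmul.comp (hg.comp (fst.comp fst)) snd)))
    · exact RD.comp (g := fun p : (α × (ℕ × ℕ)) × (ℕ × ℕ) => (p.1.1, p.2)) hφ
        ((fst.comp fst).pair snd)
  refine h1.ex.of_iff ?_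
  rintro v - ⟨a, t⟩
  simp only [qe_qmul]
  constructor
  · intro h
    -- `qe t < c * φ`: find a rational below `φ`
    have hc0 : qe (g a) ≠ 0 := by
      intro h0
      rw [h0, zero_mul] at h
      exact absurd h (not_lt.mpr (zero_le))
    have h3 : qe t / qe (g a) < φ v a := by
      rw [ENNReal.div_lt_iff (Or.inl hc0) (Or.inl (qe_ne_top _)), mul_comm]
      exact h
    obtain ⟨s, hs1, hs2⟩ := exists_qe_btwn h3
    refine ⟨s, ?_, hs2⟩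
    rw [ENNReal.div_lt_iff (Or.inl hc0) (Or.inl (qe_ne_top _)), mul_comm] at hs1
    exact hs1
  · rintro ⟨s, hs1, hs2⟩
    exact hs1.trans_le (mul_le_mul_right hs2.le _)

end Pool.Agent.Lib.MP_a8cc1b_lc
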