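import Mathlib

/-!
# A calculus of lightface analytic relations on Baire space
-/

open Primrec

namespace Pool.Agent.Lib.MP_a8cc1b_lc

/-- The initial segment of length `n` of a sequence. -/
def pre {β : Type} (w : ℕ → β) (n : ℕ) : List β := (List.range n).map w

@[simp] theorem length_pre {β : Type} (w : ℕ → β) (n : ℕ) : (pre w n).length = n := by
  simp [pre]

theorem pre_take {β : Type} (w : ℕ → β) (n m : ℕ) (h : m ≤ n) : (pre w n).take m = pre w m := by
  rw [pre, pre, ← List.map_take, List.take_range, min_eq_left h]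

theorem pre_getD {β : Type} (w : ℕ → β) (d : β) (n i : ℕ) (h : i < n) :
    (pre w n).getD i d = w i := by
  simp [pre, List.getD, h]

theorem pre_map {β γ : Type} (w : ℕ → β) (g : β → γ) (n : ℕ) :
    (pre w n).map g = pre (fun i => g (w i)) n := by
  simp [pre, Function.comp_def]

theorem pre_succ {β : Type} (w : ℕ → β) (n : ℕ) : pre w (n + 1) = pre w n ++ [w n] := by
  simp [pre, List.range_succ]

theorem pre_succ' {β : Type} (w : ℕ → β) (n : ℕ) :
    pre w (n + 1) = w 0 :: pre (fun i => w (i + 1)) n := by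
  simp [pre, List.range_succ_eq_map, Function.comp_def]

section Bounded

variable {β : Type} [Primcodable β]

theorem primrecPred_forall_lt {R : ℕ → β → Prop} (hR : PrimrecRel R) {g : β → ℕ}
    (hg : Primrec g) : PrimrecPred fun b => ∀ x < g b, R x b :=
  (hR.forall_mem_list.comp (list_range.comp hg) Primrec.id).of_eq (by simp)

theorem primrecPred_exists_lt {R : ℕ → β → Prop} (hR : PrimrecRel R) {g : β → ℕ}
    (hg : Primrec g) : PrimrecPred fun b => ∃ x < g b, R x b :=
  (hR.exists_mem_list.comp (list_range.comp hg) Primrec.id).of_eq (by simp)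

theorem _root_.PrimrecPred.imp' {p q : β → Prop} (hp : PrimrecPred p) (hq : PrimrecPred q) :
    PrimrecPred fun a => p a → q a :=
  (hp.not.or hq).of_eq fun a => by tauto

end Bounded

variable {α : Type} [Primcodable α] {β : Type} [Primcodable β]

/-- Lightface `Σ¹₁` relations on `ℕ^ℕ × α`, for a countable coded type `α`. -/
def S11 (D : (ℕ → ℕ) → α → Prop) : Prop :=
  ∃ P : α × List ℕ × List ℕ → Prop, PrimrecPred P ∧
    ∀ x a, D x a ↔ ∃ w : ℕ → ℕ, ∀ n, P (a, pre x n, pre w n)

theorem S11.of_iff {D E : (ℕ → ℕ) → α → Prop} (h : S11 D) (hE : ∀ x a, E x a ↔ D x a) :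
    S11 E := by
  obtain ⟨P, hP, hD⟩ := h
  exact ⟨P, hP, fun x a => (hE x a).trans (hD x a)⟩

theorem S11.of_use {D : (ℕ → ℕ) → α → Prop} (P' : (α × ℕ) × List ℕ × List ℕ → Prop)
    (hP' : PrimrecPred P') (g : α × ℕ → ℕ) (hg : Primrec g)
    (h : ∀ x a, D x a ↔ ∃ w : ℕ → ℕ, ∀ n, P' ((a, n), pre x (g (a, n)), pre w (g (a, n)))) :
    S11 D := by
  refine ⟨fun p => ∀ n < p.2.1.length + 1, g (p.1, n) ≤ p.2.1.length →
    P' ((p.1, n), p.2.1.take (g (p.1, n)), p.2.2.take (g (p.1, n))), ?_, ?_⟩
  · refine primrecPred_forall_lt (β := α × List ℕ × List ℕ)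
      (R := fun n (p : α × List ℕ × List ℕ) => g (p.1, n) ≤ p.2.1.length →
      P' ((p.1, n), p.2.1.take (g (p.1, n)), p.2.2.take (g (p.1, n)))) ?_ ?_
    · have hgn : Primrec fun q : ℕ × α × List ℕ × List ℕ => g (q.2.1, q.1) :=
        hg.comp ((Primrec.fst.comp Primrec.snd).pair Primrec.fst)
      have h1 : PrimrecPred fun q : ℕ × α × List ℕ × List ℕ => g (q.2.1, q.1) ≤ q.2.2.1.length :=
        nat_le.comp hgn (list_length.comp (fst.comp (snd.comp snd)))
      have h2 : PrimrecPred fun q : ℕ × α × List ℕ × List ℕ =>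
          P' ((q.2.1, q.1), q.2.2.1.take (g (q.2.1, q.1)), q.2.2.2.take (g (q.2.1, q.1))) := by
        apply hP'.comp
        exact ((fst.comp snd).pair fst).pair
          ((list_take.comp hgn (fst.comp (snd.comp snd))).pair
            (list_take.comp hgn (snd.comp (snd.comp snd))))
      exact h1.imp' h2
    · exact Primrec.succ.comp (list_length.comp (fst.comp snd))
  · intro x a
    rw [h]
    apply exists_congr
    intro w
    constructor
    · intro hw L n _ hgn
      simp only [length_pre] at hgn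
      simp only [pre_take _ _ _ hgn]
      exact hw n
    · intro hw n
      have := hw (max n (g (a, n))) n (by simp) (by simp)
      simp only [pre_take _ _ _ (le_max_right n (g (a, n)))] at this
      exact this

theorem S11.comp {D : (ℕ → ℕ) → β → Prop} (h : S11 D) {g : α → β} (hg : Primrec g) :
    S11 (fun x a => D x (g a)) := by
  obtain ⟨P, hP, hD⟩ := h
  refine ⟨fun p => P (g p.1, p.2), hP.comp ((hg.comp fst).pair snd), ?_⟩
  intro x a
  exact hD x (g a)

theorem S11.of_primrec {p : α → Prop} (hp : PrimrecPred p) :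
    S11 (fun (_ : ℕ → ℕ) a => p a) := by
  refine ⟨fun q => p q.1, hp.comp fst, ?_⟩
  intro x a
  constructor
  · intro h
    exact ⟨fun _ => 0, fun _ => h⟩
  · rintro ⟨w, hw⟩
    exact hw 0

/-- Evaluation of the real variable at a computed place. -/
theorem S11.eval {p : α × ℕ → Prop} (hp : PrimrecPred p) {g : α → ℕ} (hg : Primrec g) :
    S11 (fun (x : ℕ → ℕ) a => p (a, x (g a))) := by
  refine S11.of_use (fun q => p (q.1.1, q.2.1.getD (g q.1.1) 0)) ?_ (fun q => g q.1 + 1)
    (Primrec.succ.comp (hg.comp fst)) ?_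
  · apply hp.comp
    exact (fst.comp fst).pair ((list_getD 0).comp (fst.comp snd) (hg.comp (fst.comp fst)))
  · intro x a
    have h1 : (pre x (g a + 1)).getD (g a) 0 = x (g a) :=
      pre_getD x 0 _ _ (Nat.lt_succ_self _)
    constructor
    · intro h
      refine ⟨fun _ => 0, fun n => ?_⟩
      change p (a, (pre x (g a + 1)).getD (g a) 0)
      rw [h1]
      exact h
    · rintro ⟨w, hw⟩
      have := hw 0
      change p (a, (pre x (g a + 1)).getD (g a) 0) at this
      rw [h1] at this
      exact this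

theorem S11.and {D E : (ℕ → ℕ) → α → Prop} (hD : S11 D) (hE : S11 E) :
    S11 (fun x a => D x a ∧ E x a) := by
  obtain ⟨P, hP, hD⟩ := hD
  obtain ⟨Q, hQ, hE⟩ := hE
  refine ⟨fun p => P (p.1, p.2.1, p.2.2.map (fun i => i.unpair.1)) ∧
    Q (p.1, p.2.1, p.2.2.map (fun i => i.unpair.2)), ?_, ?_⟩
  · apply PrimrecPred.and
    · apply hP.comp
      exact fst.pair ((fst.comp snd).pair (list_map (snd.comp snd)
        (fst.comp (Primrec.unpair.comp snd)).to₂))
    · apply hQ.comp
      exact fst.pair ((fst.comp snd).pair (list_map (snd.comp snd)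
        (snd.comp (Primrec.unpair.comp snd)).to₂))
  · intro x a
    constructor
    · rintro ⟨h1, h2⟩
      obtain ⟨w, hw⟩ := (hD x a).mp h1
      obtain ⟨v, hv⟩ := (hE x a).mp h2
      refine ⟨fun n => Nat.pair (w n) (v n), fun n => ?_⟩
      simp only [pre_map, Nat.unpair_pair]
      exact ⟨hw n, hv n⟩
    · rintro ⟨w, hw⟩
      simp only [pre_map] at hw
      exact ⟨(hD x a).mpr ⟨_, fun n => (hw n).1⟩, (hE x a).mpr ⟨_, fun n => (hw n).2⟩⟩

theorem S11.ex {D : (ℕ → ℕ) → α × ℕ → Prop} (hD : S11 D) :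
    S11 (fun x a => ∃ m, D x (a, m)) := by
  obtain ⟨P, hP, hD⟩ := hD
  refine S11.of_use (fun q => P ((q.1.1, q.2.2.headI), q.2.1.take q.1.2, q.2.2.tail)) ?_
    (fun q => q.2 + 1) (Primrec.succ.comp snd) ?_
  · apply hP.comp
    exact ((fst.comp fst).pair (list_headI.comp (snd.comp snd))).pair
      ((list_take.comp (snd.comp fst) (fst.comp snd)).pair (list_tail.comp (snd.comp snd)))
  · intro x a
    constructor
    · rintro ⟨m, hm⟩
      obtain ⟨w, hw⟩ := (hD _ _).mp hm
      refine ⟨fun n => Nat.casesOn n m w, fun n => ?_⟩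
      have h1 := pre_take x (n + 1) n (Nat.le_succ n)
      have h2 := pre_succ' (fun n => (Nat.casesOn n m w : ℕ)) n
      show P ((a, (pre (fun n => (Nat.casesOn n m w : ℕ)) (n + 1)).headI),
        (pre x (n + 1)).take n, (pre (fun n => (Nat.casesOn n m w : ℕ)) (n + 1)).tail)
      rw [h1, h2]
      exact hw n
    · rintro ⟨w, hw⟩
      refine ⟨w 0, (hD _ _).mpr ⟨fun n => w (n + 1), fun n => ?_⟩⟩
      have := hw n
      have h1 := pre_take x (n + 1) n (Nat.le_succ n)
      have h2 := pre_succ' w n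
      change P ((a, (pre w (n + 1)).headI), (pre x (n + 1)).take n, (pre w (n + 1)).tail) at this
      rw [h1, h2] at this
      exact this

theorem S11.or {D E : (ℕ → ℕ) → α → Prop} (hD : S11 D) (hE : S11 E) :
    S11 (fun x a => D x a ∨ E x a) := by
  obtain ⟨P, hP, hD⟩ := hD
  obtain ⟨Q, hQ, hE⟩ := hE
  have : S11 (fun x (a : α × ℕ) => (a.2 = 0 ∧ D x a.1) ∨ (a.2 ≠ 0 ∧ E x a.1)) := by
    refine ⟨fun p => (p.1.2 = 0 ∧ P (p.1.1, p.2)) ∨ (p.1.2 ≠ 0 ∧ Q (p.1.1, p.2)), ?_, ?_⟩
    · have h0 : PrimrecPred fun p : (α × ℕ) × List ℕ × List ℕ => p.1.2 = 0 :=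
        Primrec.eq.comp (snd.comp fst) (Primrec.const 0)
      exact (h0.and (hP.comp ((fst.comp fst).pair snd))).or
        (h0.not.and (hQ.comp ((fst.comp fst).pair snd)))
    · intro x a
      by_cases h0 : a.2 = 0
      · simp only [h0, true_and, ne_eq, not_true_eq_false, false_and, or_false]
        exact hD x a.1
      · simp only [h0, false_and, ne_eq, not_false_eq_true, true_and, false_or]
        exact hE x a.1
  refine this.ex.of_iff ?_
  intro x a
  constructor
  · rintro (h | h)
    · exact ⟨0, Or.inl ⟨rfl, h⟩⟩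
    · exact ⟨1, Or.inr ⟨by simp, h⟩⟩
  · rintro ⟨m, h | h⟩
    · exact Or.inl h.2
    · exact Or.inr h.2

theorem S11.all {D : (ℕ → ℕ) → α × ℕ → Prop} (hD : S11 D) :
    S11 (fun x a => ∀ m, D x (a, m)) := by
  obtain ⟨P, hP, hD⟩ := hD
  refine S11.of_use (fun q => P ((q.1.1, q.1.2.unpair.1), q.2.1.take q.1.2.unpair.2,
    (List.range q.1.2.unpair.2).map (fun j => q.2.2.getD (Nat.pair q.1.2.unpair.1 j) 0))) ?_
    (fun q => q.2 + 1) (Primrec.succ.comp snd) ?_
  · apply hP.comp
    have hu1 : Primrec fun q : (α × ℕ) × List ℕ × List ℕ => q.1.2.unpair.1 :=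
      fst.comp (Primrec.unpair.comp (snd.comp fst))
    have hu2 : Primrec fun q : (α × ℕ) × List ℕ × List ℕ => q.1.2.unpair.2 :=
      snd.comp (Primrec.unpair.comp (snd.comp fst))
    refine ((fst.comp fst).pair hu1).pair ((list_take.comp hu2 (fst.comp snd)).pair ?_)
    refine list_map (list_range.comp hu2) ?_
    exact ((list_getD 0).comp (snd.comp (snd.comp fst))
      (Primrec₂.natPair.comp (hu1.comp fst) snd)).to₂
  · intro x a
    have key : ∀ (w : ℕ → ℕ) (n : ℕ), (List.range n.unpair.2).map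
        (fun j => (pre w (n + 1)).getD (Nat.pair n.unpair.1 j) 0) =
        pre (fun j => w (Nat.pair n.unpair.1 j)) n.unpair.2 := by
      intro w n
      simp only [pre]
      apply List.map_congr_left
      intro j hj
      have h1 : Nat.pair n.unpair.1 j < n + 1 := by
        have h2 : Nat.pair n.unpair.1 j < Nat.pair n.unpair.1 n.unpair.2 :=
          Nat.pair_lt_pair_right _ (List.mem_range.mp hj)
        rw [Nat.pair_unpair] at h2
        omega
      exact pre_getD w 0 _ _ h1
    have key2 : ∀ n : ℕ, (pre x (n + 1)).take n.unpair.2 = pre x n.unpair.2 := fun n =>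
      pre_take _ _ _ ((Nat.unpair_right_le n).trans (Nat.le_succ n))
    constructor
    · intro h
      have h' : ∀ m, ∃ w : ℕ → ℕ, ∀ n, P ((a, m), pre x n, pre w n) := fun m =>
        (hD _ _).mp (h m)
      choose w hw using h'
      refine ⟨fun k => w k.unpair.1 k.unpair.2, fun n => ?_⟩
      have h1 := key (fun k => w k.unpair.1 k.unpair.2) n
      have h2 := key2 n
      simp only [Nat.unpair_pair] at h1
      have h3 := hw n.unpair.1 n.unpair.2
      rw [← h2] at h3
      rw [← h1] at h3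
      exact h3
    · rintro ⟨w, hw⟩ m
      refine (hD _ _).mpr ⟨fun j => w (Nat.pair m j), fun n => ?_⟩
      have h3 := hw (Nat.pair m n)
      have h1 := key w (Nat.pair m n)
      have h2 := key2 (Nat.pair m n)
      simp only [Nat.unpair_pair] at h1 h2 h3
      rw [h1, h2] at h3
      exact h3

end Pool.Agent.Lib.MP_a8cc1b_lc
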